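import Mathlib
import Pool.Agent.R488.Tri.Defs
import Pool.Agent.R488.Tw.U

set_option autoImplicit false

/-!
Proofs of `StmtLeg` and `StmtDel`.
-/

namespace Pool.Agent.K3h4.Tri

open Finset Pool.Agent.R488.Tri

/-! ### Delannoy numbers -/

theorem P_PL (v : ℚ) (k : ℕ) : ((P v k : ℚ) : ℝ) = Pool.Agent.R488.Tw.UT.PL ((1 - v) / 2) k := by
  induction k using Nat.twoStepInduction with
  | zero => simp [P, Pool.Agent.R488.Tw.UT.PL]
  | one =>
    simp [P, Pool.Agent.R488.Tw.UT.PL, sum_range_succ]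
    ring
  | more k ih1 ih2 =>
    have h := Pool.Agent.R488.Tw.UT.PL_rec ((1 - (v : ℝ)) / 2) k
    have h2 : ((k : ℝ) + 2) ≠ 0 := by positivity
    rw [P]
    push_cast
    rw [ih1, ih2, div_eq_iff h2, mul_comm (Pool.Agent.R488.Tw.UT.PL _ (k + 2)), h]
    ring

theorem stmtDel : StmtDel := by
  intro k
  have h := P_PL 3 k
  have h2 : (((P 3 k : ℚ)) : ℝ) = ((∑ i ∈ range (k + 1), (((k + i).choose (2 * i) *
      (2 * i).choose i : ℕ) : ℚ) : ℚ) : ℝ) := by
    rw [h, Pool.Agent.R488.Tw.UT.PL]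
    push_cast
    refine sum_congr rfl fun i hi => ?_
    have hi' := mem_range.1 hi
    have e1 : (-((1 - (3 : ℝ)) / 2)) ^ i = 1 := by norm_num
    rw [e1, mul_one]
    have e2 := Nat.choose_mul (n := k + i) (k := 2 * i) (s := i) (by omega)
    rw [show k + i - i = k by omega, show 2 * i - i = i by omega] at e2
    have : (((k + i).choose (2 * i) * (2 * i).choose i : ℕ) : ℝ) =
      (((k + i).choose i * k.choose i : ℕ) : ℝ) := by rw [e2]
    push_cast at this
    rw [this]; ring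
  exact_mod_cast h2

/-! ### Expansion of the Legendre polynomials in powers of `v` -/

def al (n i : ℕ) : ℚ := (-1) ^ (n + i) * ((2 * n + 2 * i).factorial : ℚ) /
  (4 ^ n * (n - i).factorial * (n + i).factorial * (2 * i).factorial)

def be (n i : ℕ) : ℚ := (-1) ^ (n + i) * ((2 * n + 2 * i + 2).factorial : ℚ) /
  (2 * 4 ^ n * (n - i).factorial * (n + i + 1).factorial * (2 * i + 1).factorial)

theorem sgn (a b : ℕ) : ((-1 : ℚ)) ^ (a + b + a) = (-1) ^ b := by
  rw [show a + b + a = b + 2 * a by ring, pow_add, pow_mul]; norm_num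

theorem al_eq (i m : ℕ) : al (i + m) i = (-1) ^ m * ((4 * i + 2 * m).factorial : ℚ) /
    (4 ^ (i + m) * m.factorial * (2 * i + m).factorial * (2 * i).factorial) := by
  rw [al, sgn, show 2 * (i + m) + 2 * i = 4 * i + 2 * m by ring, show i + m - i = m by omega,
    show i + m + i = 2 * i + m by ring]

theorem be_eq (i m : ℕ) : be (i + m) i = (-1) ^ m * ((4 * i + 2 * m + 2).factorial : ℚ) /
    (2 * 4 ^ (i + m) * m.factorial * (2 * i + m + 1).factorial * (2 * i + 1).factorial) := by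
  rw [be, sgn, show 2 * (i + m) + 2 * i + 2 = 4 * i + 2 * m + 2 by ring, show i + m - i = m by omega,
    show i + m + i + 1 = 2 * i + m + 1 by ring]

theorem recA (i m : ℕ) : (2 * ((i : ℚ) + m + 1) + 2) * al (i + m + 1 + 1) (i + 1) =
    (4 * ((i : ℚ) + m + 1) + 3) * be (i + m + 1) i - (2 * ((i : ℚ) + m + 1) + 1) * al (i + m + 1) (i + 1) := by
  have e1 : al (i + m + 1 + 1) (i + 1) = (-1) ^ (m + 1) * ((4 * (i + 1) + 2 * (m + 1)).factorial : ℚ) /
    (4 ^ (i + m + 2) * (m + 1).factorial * (2 * (i + 1) + (m + 1)).factorial * (2 * (i + 1)).factorial) := by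
    rw [show i + m + 1 + 1 = (i + 1) + (m + 1) by ring, al_eq, show i + 1 + (m + 1) = i + m + 2 by ring]
  have e2 : be (i + m + 1) i = (-1) ^ (m + 1) * ((4 * i + 2 * (m + 1) + 2).factorial : ℚ) /
    (2 * 4 ^ (i + m + 1) * (m + 1).factorial * (2 * i + (m + 1) + 1).factorial * (2 * i + 1).factorial) := by
    rw [show i + m + 1 = i + (m + 1) by ring, be_eq]
  have e3 : al (i + m + 1) (i + 1) = (-1) ^ m * ((4 * (i + 1) + 2 * m).factorial : ℚ) /
    (4 ^ (i + m + 1) * m.factorial * (2 * (i + 1) + m).factorial * (2 * (i + 1)).factorial) := by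
    rw [show i + m + 1 = (i + 1) + m by ring, al_eq]
  rw [e1, e2, e3, show 4 * (i + 1) + 2 * (m + 1) = 4 * i + 2 * m + 4 + 1 + 1 by ring,
    show 4 * i + 2 * (m + 1) + 2 = 4 * i + 2 * m + 4 by ring,
    show 4 * (i + 1) + 2 * m = 4 * i + 2 * m + 4 by ring,
    show 2 * (i + 1) + (m + 1) = 2 * i + m + 2 + 1 by ring,
    show 2 * i + (m + 1) + 1 = 2 * i + m + 2 by ring,
    show 2 * (i + 1) + m = 2 * i + m + 2 by ring,
    show 2 * (i + 1) = 2 * i + 1 + 1 by ring,
    Nat.factorial_succ (4 * i + 2 * m + 4 + 1), Nat.factorial_succ (4 * i + 2 * m + 4),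
    Nat.factorial_succ (2 * i + m + 2), Nat.factorial_succ (2 * i + 1), Nat.factorial_succ m,
    pow_succ (-1 : ℚ) m, show i + m + 2 = i + m + 1 + 1 by ring, pow_succ (4 : ℚ) (i + m + 1)]
  have f1 : ((4 * i + 2 * m + 4).factorial : ℚ) ≠ 0 := by positivity
  have f2 : ((2 * i + m + 2).factorial : ℚ) ≠ 0 := by positivity
  have f3 : ((2 * i + 1).factorial : ℚ) ≠ 0 := by positivity
  have f4 : (m.factorial : ℚ) ≠ 0 := by positivity
  have f5 : (4 : ℚ) ^ (i + m + 1) ≠ 0 := by positivity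
  push_cast
  generalize ((4 * i + 2 * m + 4).factorial : ℚ) = a at *
  generalize ((2 * i + m + 2).factorial : ℚ) = b at *
  generalize ((2 * i + 1).factorial : ℚ) = c at *
  generalize (m.factorial : ℚ) = d at *
  generalize (4 : ℚ) ^ (i + m + 1) = e at *
  have g1 : ((m : ℚ) + 1) ≠ 0 := by positivity
  have g2 : (2 * (i : ℚ) + m + 2 + 1) ≠ 0 := by positivity
  have g3 : (2 * (i : ℚ) + 1 + 1) ≠ 0 := by positivity
  field_simp
  ring

theorem recA0 (m : ℕ) : (2 * (m : ℚ) + 2) * al (m + 1) 0 = -((2 * (m : ℚ) + 1) * al m 0) := by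
  have e1 := al_eq 0 (m + 1)
  have e2 := al_eq 0 m
  rw [zero_add] at e1 e2
  rw [e1, e2, show 4 * 0 + 2 * (m + 1) = 2 * m + 1 + 1 by ring, show 4 * 0 + 2 * m = 2 * m by ring,
    show 2 * 0 + (m + 1) = m + 1 by ring, show 2 * 0 + m = m by ring,
    Nat.factorial_succ (2 * m + 1), Nat.factorial_succ (2 * m), Nat.factorial_succ m, pow_succ (-1 : ℚ),
    pow_succ (4 : ℚ)]
  have f1 : ((2 * m).factorial : ℚ) ≠ 0 := by positivity
  have f4 : (m.factorial : ℚ) ≠ 0 := by positivity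
  have f5 : (4 : ℚ) ^ m ≠ 0 := by positivity
  push_cast
  have g1 : ((m : ℚ) + 1) ≠ 0 := by positivity
  field_simp
  ring

theorem recAtop (i : ℕ) : (2 * (i : ℚ) + 2) * al (i + 1) (i + 1) = (4 * (i : ℚ) + 3) * be i i := by
  have e1 := al_eq (i + 1) 0
  have e2 := be_eq i 0
  rw [add_zero] at e1 e2
  rw [e1, e2, show 4 * (i + 1) + 2 * 0 = 4 * i + 2 + 1 + 1 by ring, show 4 * i + 2 * 0 + 2 = 4 * i + 2 by ring,
    show 2 * (i + 1) + 0 = 2 * i + 1 + 1 by ring, show 2 * (i + 1) = 2 * i + 1 + 1 by ring,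
    show 2 * i + 0 + 1 = 2 * i + 1 by ring,
    Nat.factorial_succ (4 * i + 2 + 1), Nat.factorial_succ (4 * i + 2), Nat.factorial_succ (2 * i + 1),
    pow_succ (4 : ℚ)]
  have f1 : ((4 * i + 2).factorial : ℚ) ≠ 0 := by positivity
  have f4 : ((2 * i + 1).factorial : ℚ) ≠ 0 := by positivity
  have f5 : (4 : ℚ) ^ i ≠ 0 := by positivity
  push_cast
  have g1 : (2 * (i : ℚ) + 1 + 1) ≠ 0 := by positivity
  field_simp
  ring

theorem recB (i m : ℕ) : (2 * ((i : ℚ) + m) + 3) * be (i + m + 1) i =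
    (4 * ((i : ℚ) + m) + 5) * al (i + m + 1) i - (2 * ((i : ℚ) + m) + 2) * be (i + m) i := by
  rw [show i + m + 1 = i + (m + 1) by ring, be_eq, al_eq, be_eq,
    show 4 * i + 2 * (m + 1) + 2 = 4 * i + 2 * m + 2 + 1 + 1 by ring,
    show 4 * i + 2 * (m + 1) = 4 * i + 2 * m + 2 by ring,
    show 2 * i + (m + 1) = 2 * i + m + 1 by ring,
    Nat.factorial_succ (4 * i + 2 * m + 2 + 1), Nat.factorial_succ (4 * i + 2 * m + 2),
    Nat.factorial_succ (2 * i + m + 1), Nat.factorial_succ (2 * i), Nat.factorial_succ m,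
    pow_succ (-1 : ℚ), ← add_assoc i m 1, pow_succ (4 : ℚ)]
  have f1 : ((4 * i + 2 * m + 2).factorial : ℚ) ≠ 0 := by positivity
  have f2 : ((2 * i + m + 1).factorial : ℚ) ≠ 0 := by positivity
  have f3 : ((2 * i).factorial : ℚ) ≠ 0 := by positivity
  have f4 : (m.factorial : ℚ) ≠ 0 := by positivity
  have f5 : (4 : ℚ) ^ (i + m) ≠ 0 := by positivity
  push_cast
  generalize ((4 * i + 2 * m + 2).factorial : ℚ) = a at *
  generalize ((2 * i + m + 1).factorial : ℚ) = b at *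
  generalize ((2 * i).factorial : ℚ) = c at *
  generalize (m.factorial : ℚ) = d at *
  generalize (4 : ℚ) ^ (i + m) = e at *
  have g1 : ((m : ℚ) + 1) ≠ 0 := by positivity
  have g2 : (2 * (i : ℚ) + m + 1 + 1) ≠ 0 := by positivity
  have g3 : (2 * (i : ℚ) + 1) ≠ 0 := by positivity
  field_simp
  ring

theorem recBtop (i : ℕ) : (2 * (i : ℚ) + 1) * be i i = (4 * (i : ℚ) + 1) * al i i := by
  have e1 := al_eq i 0
  have e2 := be_eq i 0
  rw [add_zero] at e1 e2
  rw [e1, e2, show 4 * i + 2 * 0 + 2 = 4 * i + 1 + 1 by ring, show 4 * i + 2 * 0 = 4 * i by ring,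
    show 2 * i + 0 + 1 = 2 * i + 1 by ring, show 2 * i + 0 = 2 * i by ring,
    Nat.factorial_succ (4 * i + 1), Nat.factorial_succ (4 * i), Nat.factorial_succ (2 * i)]
  have f1 : ((4 * i).factorial : ℚ) ≠ 0 := by positivity
  have f4 : ((2 * i).factorial : ℚ) ≠ 0 := by positivity
  have f5 : (4 : ℚ) ^ i ≠ 0 := by positivity
  push_cast
  have g1 : (2 * (i : ℚ) + 1) ≠ 0 := by positivity
  field_simp
  ring

theorem P_even_odd (v : ℚ) (n : ℕ) : P v (2 * n) = ∑ i ∈ range (n + 1), al n i * v ^ (2 * i) ∧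
    P v (2 * n + 1) = ∑ i ∈ range (n + 1), be n i * v ^ (2 * i + 1) := by
  induction n with
  | zero =>
    constructor
    · simp [P, al]
    · simp [P, be]
  | succ n ih =>
    have h1 : P v (2 * (n + 1)) = ∑ i ∈ range (n + 1 + 1), al (n + 1) i * v ^ (2 * i) := by
      have hP : P v (2 * (n + 1)) = ((2 * ((2 * n : ℕ) : ℚ) + 3) * v * P v (2 * n + 1) -
        (((2 * n : ℕ) : ℚ) + 1) * P v (2 * n)) / (((2 * n : ℕ) : ℚ) + 2) := by
        rw [show 2 * (n + 1) = 2 * n + 2 by ring, P]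
      have h0 : (((2 * n : ℕ) : ℚ) + 2) ≠ 0 := by positivity
      rw [hP, div_eq_iff h0, ih.1, ih.2, sum_range_succ' (fun i => al (n + 1) i * v ^ (2 * i)),
        sum_range_succ (fun i => al (n + 1) (i + 1) * v ^ (2 * (i + 1))),
        sum_range_succ' (fun i => al n i * v ^ (2 * i)), sum_range_succ (fun i => be n i * v ^ (2 * i + 1))]
      have t0 := recA0 n
      have t1 := recAtop n
      have e1 : ∀ i ∈ range n, (2 * (n : ℚ) + 2) * (al (n + 1) (i + 1) * v ^ (2 * (i + 1))) =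
          (4 * (n : ℚ) + 3) * v * (be n i * v ^ (2 * i + 1)) -
          (2 * (n : ℚ) + 1) * (al n (i + 1) * v ^ (2 * (i + 1))) := by
        intro i hi
        obtain ⟨m, rfl⟩ : ∃ m, n = i + m + 1 := ⟨n - i - 1, by have := mem_range.1 hi; omega⟩
        have h := recA i m
        push_cast
        rw [show v ^ (2 * (i + 1)) = v ^ (2 * i + 1) * v by rw [← pow_succ]; ring_nf]
        linear_combination (v ^ (2 * i + 1) * v) * h
      have e2 := sum_congr (s₁ := range n) rfl e1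
      rw [← mul_sum, sum_sub_distrib, ← mul_sum, ← mul_sum] at e2
      push_cast
      simp only [pow_zero, mul_one]
      rw [show v ^ (2 * (n + 1)) = v ^ (2 * n + 1) * v by rw [← pow_succ]; ring_nf]
      linear_combination (-1) * e2 - t0 - v ^ (2 * n + 1) * v * t1
    refine ⟨h1, ?_⟩
    have hP : P v (2 * (n + 1) + 1) = ((2 * ((2 * n + 1 : ℕ) : ℚ) + 3) * v * P v (2 * (n + 1)) -
        (((2 * n + 1 : ℕ) : ℚ) + 1) * P v (2 * n + 1)) / (((2 * n + 1 : ℕ) : ℚ) + 2) := by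
      rw [show 2 * (n + 1) + 1 = 2 * n + 1 + 2 by ring, P, show 2 * n + 1 + 1 = 2 * (n + 1) by ring]
    have h0 : (((2 * n + 1 : ℕ) : ℚ) + 2) ≠ 0 := by positivity
    rw [hP, div_eq_iff h0, h1, ih.2, sum_range_succ (fun i => be (n + 1) i * v ^ (2 * i + 1)),
      sum_range_succ (fun i => al (n + 1) i * v ^ (2 * i))]
    have t1 := recBtop (n + 1)
    have e1 : ∀ i ∈ range (n + 1), (2 * (n : ℚ) + 3) * (be (n + 1) i * v ^ (2 * i + 1)) =
        (4 * (n : ℚ) + 5) * v * (al (n + 1) i * v ^ (2 * i)) -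
        (2 * (n : ℚ) + 2) * (be n i * v ^ (2 * i + 1)) := by
      intro i hi
      obtain ⟨m, rfl⟩ : ∃ m, n = i + m := ⟨n - i, by have := mem_range.1 hi; omega⟩
      have h := recB i m
      push_cast
      rw [pow_succ]
      linear_combination (v ^ (2 * i) * v) * h
    have e2 := sum_congr (s₁ := range (n + 1)) rfl e1
    rw [← mul_sum, sum_sub_distrib, ← mul_sum, ← mul_sum] at e2
    push_cast at t1 ⊢
    rw [pow_succ v (2 * (n + 1))]
    linear_combination (-1) * e2 - v ^ (2 * (n + 1)) * v * t1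

/-! ### The alternating sums -/

theorem ce_rec (i m : ℕ) : ce (i + m + 1) i - ce (i + m) i = (-1) ^ (i + m + 1) * al (i + m + 1) i := by
  rw [show i + m + 1 = i + (m + 1) by ring, al_eq, ce, ce,
    show 2 * (i + (m + 1)) + 2 * i + 1 = 4 * i + 2 * m + 1 + 1 + 1 by ring,
    show 2 * (i + m) + 2 * i + 1 = 4 * i + 2 * m + 1 by ring,
    show 4 * i + 2 * (m + 1) = 4 * i + 2 * m + 1 + 1 by ring,
    show i + (m + 1) - i = m + 1 by omega, show i + m - i = m by omega,
    show i + (m + 1) + i = 2 * i + m + 1 by ring, show i + m + i = 2 * i + m by ring,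
    show 2 * i + (m + 1) = 2 * i + m + 1 by ring,
    Nat.factorial_succ (4 * i + 2 * m + 1 + 1), Nat.factorial_succ (4 * i + 2 * m + 1),
    Nat.factorial_succ (2 * i + m), Nat.factorial_succ m, ← add_assoc i m 1, pow_succ (4 : ℚ)]
  have hs : ((-1 : ℚ)) ^ (i + m + 1) * (-1) ^ (m + 1) = (-1) ^ i := by
    rw [← pow_add, show i + m + 1 + (m + 1) = i + 2 * (m + 1) by ring, pow_add, pow_mul]; norm_num
  have f1 : ((4 * i + 2 * m + 1).factorial : ℚ) ≠ 0 := by positivity
  have f2 : ((2 * i + m).factorial : ℚ) ≠ 0 := by positivity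
  have f3 : ((2 * i).factorial : ℚ) ≠ 0 := by positivity
  have f4 : (m.factorial : ℚ) ≠ 0 := by positivity
  have f5 : (4 : ℚ) ^ (i + m) ≠ 0 := by positivity
  push_cast
  rw [← hs]
  generalize ((4 * i + 2 * m + 1).factorial : ℚ) = a at *
  generalize ((2 * i + m).factorial : ℚ) = b at *
  generalize ((2 * i).factorial : ℚ) = c at *
  generalize (m.factorial : ℚ) = d at *
  generalize (4 : ℚ) ^ (i + m) = e at *
  generalize ((-1 : ℚ)) ^ (i + m + 1) = s at *
  generalize ((-1 : ℚ)) ^ (m + 1) = t at *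
  have g1 : ((m : ℚ) + 1) ≠ 0 := by positivity
  have g2 : (2 * (i : ℚ) + m + 1) ≠ 0 := by positivity
  have g3 : (4 * (i : ℚ) + 1) ≠ 0 := by positivity
  field_simp
  ring

theorem ce_top (i : ℕ) : ce i i = (-1) ^ i * al i i := by
  have e1 := al_eq i 0
  rw [add_zero] at e1
  rw [e1, ce, show 2 * i + 2 * i + 1 = 4 * i + 1 by ring, show i - i = 0 by omega,
    show i + i = 2 * i by ring, show 4 * i + 2 * 0 = 4 * i by ring, Nat.factorial_succ (4 * i)]
  have f1 : ((4 * i).factorial : ℚ) ≠ 0 := by positivity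
  have f3 : ((2 * i).factorial : ℚ) ≠ 0 := by positivity
  have f5 : (4 : ℚ) ^ i ≠ 0 := by positivity
  push_cast
  have g3 : (4 * (i : ℚ) + 1) ≠ 0 := by positivity
  simp only [Nat.factorial_zero, Nat.cast_one, pow_zero, add_zero]
  field_simp

theorem co_rec (i m : ℕ) : co (i + m + 1 + 1) i - co (i + m + 1) i =
    (-1) ^ (i + m + 1) * be (i + m + 1) i := by
  rw [show i + m + 1 + 1 = i + (m + 1) + 1 by ring, show i + m + 1 = i + (m + 1) by ring, be_eq, co, co,
    show 2 * (i + (m + 1) + 1) + 2 * i + 1 = 4 * i + 2 * m + 3 + 1 + 1 by ring,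
    show 2 * (i + (m + 1)) + 2 * i + 1 = 4 * i + 2 * m + 3 by ring,
    show 4 * i + 2 * (m + 1) + 2 = 4 * i + 2 * m + 3 + 1 by ring,
    show i + (m + 1) + 1 - 1 - i = m + 1 by omega, show i + (m + 1) - 1 - i = m by omega,
    show i + (m + 1) + 1 + i = 2 * i + m + 1 + 1 by ring, show i + (m + 1) + i = 2 * i + m + 1 by ring,
    show 2 * i + (m + 1) + 1 = 2 * i + m + 1 + 1 by ring,
    Nat.factorial_succ (4 * i + 2 * m + 3 + 1), Nat.factorial_succ (4 * i + 2 * m + 3),
    Nat.factorial_succ (2 * i + m + 1), Nat.factorial_succ m, pow_succ (4 : ℚ) (i + (m + 1))]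
  have hs : ((-1 : ℚ)) ^ (i + (m + 1)) * (-1) ^ (m + 1) = (-1) ^ i := by
    rw [← pow_add, show i + (m + 1) + (m + 1) = i + 2 * (m + 1) by ring, pow_add, pow_mul]; norm_num
  have f1 : ((4 * i + 2 * m + 3).factorial : ℚ) ≠ 0 := by positivity
  have f2 : ((2 * i + m + 1).factorial : ℚ) ≠ 0 := by positivity
  have f3 : ((2 * i + 1).factorial : ℚ) ≠ 0 := by positivity
  have f4 : (m.factorial : ℚ) ≠ 0 := by positivity
  have f5 : (4 : ℚ) ^ (i + (m + 1)) ≠ 0 := by positivity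
  push_cast
  rw [← hs]
  generalize ((4 * i + 2 * m + 3).factorial : ℚ) = a at *
  generalize ((2 * i + m + 1).factorial : ℚ) = b at *
  generalize ((2 * i + 1).factorial : ℚ) = c at *
  generalize (m.factorial : ℚ) = d at *
  generalize (4 : ℚ) ^ (i + (m + 1)) = e at *
  generalize ((-1 : ℚ)) ^ (i + (m + 1)) = s at *
  generalize ((-1 : ℚ)) ^ (m + 1) = t at *
  have g1 : ((m : ℚ) + 1) ≠ 0 := by positivity
  have g2 : (2 * (i : ℚ) + m + 1 + 1) ≠ 0 := by positivity
  have g3 : (4 * (i : ℚ) + 3) ≠ 0 := by positivity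
  field_simp
  ring

theorem co_top (i : ℕ) : co (i + 1) i = (-1) ^ i * be i i := by
  have e1 := be_eq i 0
  rw [add_zero] at e1
  rw [e1, co, show 2 * (i + 1) + 2 * i + 1 = 4 * i + 2 + 1 by ring, show i + 1 - 1 - i = 0 by omega,
    show i + 1 + i = 2 * i + 1 by ring, show 4 * i + 2 * 0 + 2 = 4 * i + 2 by ring,
    Nat.factorial_succ (4 * i + 2), pow_succ (4 : ℚ)]
  have f1 : ((4 * i + 2).factorial : ℚ) ≠ 0 := by positivity
  have f3 : ((2 * i + 1).factorial : ℚ) ≠ 0 := by positivity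
  have f5 : (4 : ℚ) ^ i ≠ 0 := by positivity
  push_cast
  have g3 : (4 * (i : ℚ) + 3) ≠ 0 := by positivity
  simp only [Nat.factorial_zero, Nat.cast_one, pow_zero, add_zero]
  field_simp
  ring

theorem eps_even (n : ℕ) : eps (2 * n) = (-1) ^ n := by
  rw [eps]; congr 1; omega

theorem eps_odd (n : ℕ) : eps (2 * n + 1) = (-1) ^ n := by
  rw [eps]; congr 1; omega

theorem stmtLeg : StmtLeg := by
  intro v n
  induction n with
  | zero => simp [eps, P, ce]
  | succ n ih =>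
    have h1 : ∑ k ∈ range (2 * (n + 1) + 1), eps k * P v k = ∑ k ∈ range (2 * n + 1), eps k * P v k +
        (-1) ^ n * P v (2 * n + 1) + (-1) ^ (n + 1) * P v (2 * (n + 1)) := by
      rw [show 2 * (n + 1) + 1 = 2 * n + 1 + 1 + 1 by ring, sum_range_succ, sum_range_succ,
        eps_odd, show 2 * n + 1 + 1 = 2 * (n + 1) by ring, eps_even]
    rw [h1, ih, (P_even_odd v n).2, (P_even_odd v (n + 1)).1]
    have h2 : ∑ i ∈ range (n + 1 + 1), ce (n + 1) i * v ^ (2 * i) =
        ∑ i ∈ range (n + 1), ce n i * v ^ (2 * i) +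
        (-1) ^ (n + 1) * ∑ i ∈ range (n + 1 + 1), al (n + 1) i * v ^ (2 * i) := by
      have e : ∑ i ∈ range (n + 1), ce (n + 1) i * v ^ (2 * i) = ∑ i ∈ range (n + 1), ce n i * v ^ (2 * i) +
          (-1) ^ (n + 1) * ∑ i ∈ range (n + 1), al (n + 1) i * v ^ (2 * i) := by
        rw [mul_sum, ← sum_add_distrib]
        refine sum_congr rfl fun i hi => ?_
        obtain ⟨m, rfl⟩ : ∃ m, n = i + m := ⟨n - i, by have := mem_range.1 hi; omega⟩
        linear_combination (v ^ (2 * i)) * ce_rec i m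
      rw [sum_range_succ _ (n + 1), sum_range_succ (fun i => al (n + 1) i * v ^ (2 * i)) (n + 1),
        ce_top, e]
      ring
    have h3 : ∑ i ∈ range (n + 1), co (n + 1) i * v ^ (2 * i + 1) =
        ∑ i ∈ range n, co n i * v ^ (2 * i + 1) +
        (-1) ^ n * ∑ i ∈ range (n + 1), be n i * v ^ (2 * i + 1) := by
      have e : ∑ i ∈ range n, co (n + 1) i * v ^ (2 * i + 1) = ∑ i ∈ range n, co n i * v ^ (2 * i + 1) +
          (-1) ^ n * ∑ i ∈ range n, be n i * v ^ (2 * i + 1) := by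
        rw [mul_sum, ← sum_add_distrib]
        refine sum_congr rfl fun i hi => ?_
        obtain ⟨m, rfl⟩ : ∃ m, n = i + m + 1 := ⟨n - i - 1, by have := mem_range.1 hi; omega⟩
        linear_combination (v ^ (2 * i + 1)) * co_rec i m
      rw [sum_range_succ _ n, sum_range_succ (fun i => be n i * v ^ (2 * i + 1)) n, co_top, e]
      ring
    rw [h2, h3]
    ring

end Pool.Agent.K3h4.Tri
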