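import Mathlib
import Pool.Agent.R488.Tri.ModA

set_option autoImplicit false

/-!
The sums `y^n + p * ∑ y^i/(2i+1)` modulo `p^2` (proofs of `StmtLam` and `StmtVal`).
-/

namespace Pool.Agent.K3h4.Tri

open Finset Pool.Agent.R439.PL Pool.Agent.R439.PL.S4 Pool.Agent.R488.Tri

variable {p n : ℕ} [hp : Fact p.Prime]

/-- `C(p,m+1) = (-1)^m p/(m+1)` modulo `p^2` -/
theorem choose_p (m : ℕ) (hm : m + 1 < p) :
    EQ p 2 (p.choose (m + 1) : ℚ) ((-1) ^ m * (p / ((m : ℚ) + 1))) := by
  have h1 := Nat.add_one_mul_choose_eq (p - 1) m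
  have hp1 : p - 1 + 1 = p := by have := hp.out.pos; omega
  rw [hp1] at h1
  have h2 : (p : ℚ) * ((p - 1).choose m : ℚ) = (p.choose (m + 1) : ℚ) * ((m : ℚ) + 1) := by
    exact_mod_cast h1
  have hu := U_nat (p := p) (k := m + 1) (by omega) hm
  push_cast at hu
  have h3 := choose_pm1 (p := p) m (by omega)
  refine ⟨nat_mem _, mul_mem (neg_mem' _) ?_, ?_⟩
  · rw [div_eq_mul_inv]; exact mul_mem p_mem hu.2.2
  · have h4 : (p.choose (m + 1) : ℚ) - (-1) ^ m * (p / ((m : ℚ) + 1)) =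
        (p * (((p - 1).choose m : ℚ) - (-1) ^ m)) * ((m : ℚ) + 1)⁻¹ := by
      have := hu.1
      field_simp
      linear_combination (-1) * h2
    rw [h4]
    exact ((I_p (p := p)).mul h3.2.2).mulR hu.2.2

theorem stmtLam : StmtLam := by
  intro p n _ hpn h3 y
  have hpq : (p : ℚ) = 2 * n + 1 := by exact_mod_cast hpn
  have my : (y : ℚ) ∈ Zp p := int_mem y
  obtain ⟨z, hz⟩ : ∃ z : ℚ, z = (y : ℚ) := ⟨_, rfl⟩
  rw [← hz] at my ⊢
  -- split the sums
  have hO : OO p z = ∑ i ∈ range n, (p.choose (2 * i + 1) : ℚ) * z ^ i + z ^ n := by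
    rw [OO, ← sum_subset (range_subset_range.2 (show n + 1 ≤ p + 1 by omega))]
    · rw [sum_range_succ, ← hpn, Nat.choose_self]; push_cast; ring
    · intro i _ hi
      rw [Nat.choose_eq_zero_of_lt (show p < 2 * i + 1 by have := mt mem_range.2 hi; omega)]
      simp
  have hE : EV p z = ∑ i ∈ range n, (p.choose (2 * (i + 1)) : ℚ) * z ^ (i + 1) + 1 := by
    rw [EV, ← sum_subset (range_subset_range.2 (show n + 1 ≤ p + 1 by omega))]
    · rw [sum_range_succ']; simp
    · intro i _ hi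
      rw [Nat.choose_eq_zero_of_lt (show p < 2 * i by have := mt mem_range.2 hi; omega)]
      simp
  have hL : LL p z = ∑ i ∈ range n, z ^ i / (2 * i + 1) +
      ∑ i ∈ range n, z ^ (n + (i + 1)) / (2 * ((n : ℚ) + (i + 1)) + 1) := by
    rw [LL, show range p = range (n + (n + 1)) by rw [hpn]; congr 1; ring, sum_range_add]
    congr 1
    · refine sum_congr rfl fun i hi => ?_
      rw [if_neg (by have := mem_range.1 hi; omega)]
    · rw [sum_range_succ', if_pos (by omega), add_zero]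
      refine sum_congr rfl fun i hi => ?_
      rw [if_neg (by have := mem_range.1 hi; omega)]
      push_cast; ring
  have e1 : z ^ n + p * LL p z = z ^ n + ∑ i ∈ range n, (p / (2 * (i : ℚ) + 1)) * z ^ i +
      z ^ n * ∑ i ∈ range n, (p / (2 * ((n : ℚ) + (i + 1)) + 1)) * z ^ (i + 1) := by
    rw [hL, mul_add, mul_sum, mul_sum, mul_sum, ← add_assoc]
    congr 1
    · congr 1
      exact sum_congr rfl fun i _ => by ring
    · exact sum_congr rfl fun i _ => by rw [pow_add]; ring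
  have e2 : OO p z - z ^ n * (EV p z - 1) = z ^ n + ∑ i ∈ range n, (p.choose (2 * i + 1) : ℚ) * z ^ i +
      z ^ n * ∑ i ∈ range n, (-(p.choose (2 * (i + 1)) : ℚ)) * z ^ (i + 1) := by
    rw [hO, hE]
    simp only [neg_mul, sum_neg_distrib]
    ring
  rw [e1, e2]
  refine EQ.add (EQ.add (EQ.refl (pow_mem my _)) (EQ.sum fun i hi => ?_))
    (EQ.mul (EQ.refl (pow_mem my _)) (EQ.sum fun i hi => ?_))
  · have hi' := mem_range.1 hi
    have h := choose_p (p := p) (2 * i) (by omega)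
    rw [pow_mul, neg_one_sq, one_pow, one_mul] at h
    push_cast at h
    exact EQ.mul h.symm (EQ.refl (pow_mem my _))
  · have hi' := mem_range.1 hi
    refine EQ.mul ?_ (EQ.refl (pow_mem my _))
    have h := choose_p (p := p) (2 * i + 1) (by omega)
    have hs : ((-1 : ℚ)) ^ (2 * i + 1) = -1 := by rw [pow_succ, pow_mul]; norm_num
    rw [hs, show 2 * i + 1 + 1 = 2 * (i + 1) by ring] at h
    have h' := h.neg
    refine EQ.trans ?_ h'.symm
    have u1 := U_nat (p := p) (k := 2 * i + 2) (by omega) (by omega)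
    have u2 := two_add_one_U (p := p) hpn (i := n + (i + 1)) (by omega) (by omega)
    push_cast at u1 u2 ⊢
    have e3 : 2 * ((n : ℚ) + (i + 1)) + 1 = p + (2 * i + 2) := by rw [hpq]; ring
    rw [e3] at u2 ⊢
    refine ⟨?_, ?_, ?_⟩
    · rw [div_eq_mul_inv]; exact mul_mem p_mem u2.2.2
    · have : -(-1 * ((p : ℚ) / (2 * i + 1 + 1))) = p * (2 * (i : ℚ) + 2)⁻¹ := by
        rw [div_eq_mul_inv]; ring_nf
      rw [this]; exact mul_mem p_mem u1.2.2
    · have a1 := u1.1
      have a2 := u2.1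
      have : (p : ℚ) / (p + (2 * i + 2)) - -(-1 * (p / (2 * i + 1 + 1))) =
          (p * p) * (-((p + (2 * i + 2) : ℚ)⁻¹ * (2 * (i : ℚ) + 2)⁻¹)) := by
        have a3 : (2 * (i : ℚ) + 1 + 1) ≠ 0 := by convert a1 using 1; ring
        field_simp
        ring
      rw [this]
      exact ((I_p (p := p)).mul (I_p (p := p))).mulR (neg_mem (mul_mem u2.2.2 u1.2.2))

end Pool.Agent.K3h4.Tri
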