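import Mathlib
import Pool.Agent.K3h4.Tri.Lam

set_option autoImplicit false

/-!
Values of the sums `y^n + p * ∑ y^i/(2i+1)` modulo `p^2` at `y = 1, -1, -3, 4`.
-/

namespace Pool.Agent.K3h4.Tri

open Finset Pool.Agent.R439.PL Pool.Agent.R439.PL.S4 Pool.Agent.R488.Tri

theorem EV_succ (m : ℕ) (y : ℚ) : EV (m + 1) y = EV m y + y * OO m y := by
  have h1 : EV m y = ∑ i ∈ range (m + 1), (m.choose (2 * (i + 1)) : ℚ) * y ^ (i + 1) + 1 := by
    rw [EV, sum_range_succ', sum_range_succ _ m, Nat.choose_eq_zero_of_lt (show m < 2 * (m + 1) by omega)]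
    simp
  rw [EV, sum_range_succ', h1, OO, mul_sum]
  have h2 : ∀ i ∈ range (m + 1), (((m + 1).choose (2 * (i + 1)) : ℕ) : ℚ) * y ^ (i + 1) =
      (m.choose (2 * (i + 1)) : ℚ) * y ^ (i + 1) + y * ((m.choose (2 * i + 1) : ℚ) * y ^ i) := by
    intro i _
    rw [show 2 * (i + 1) = 2 * i + 1 + 1 by ring, Nat.choose_succ_succ]
    push_cast; ring
  rw [sum_congr rfl h2, sum_add_distrib]
  simp
  ring

theorem OO_succ (m : ℕ) (y : ℚ) : OO (m + 1) y = OO m y + EV m y := by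
  rw [OO, OO, EV, sum_range_succ _ (m + 1), Nat.choose_eq_zero_of_lt (show m + 1 < 2 * (m + 1) + 1 by omega),
    ← sum_add_distrib]
  simp only [Nat.cast_zero, zero_mul, add_zero]
  refine sum_congr rfl fun i _ => ?_
  rw [Nat.choose_succ_succ]; push_cast; ring

theorem EV_zero (y : ℚ) : EV 0 y = 1 := by simp [EV]
theorem OO_zero (y : ℚ) : OO 0 y = 0 := by simp [OO]

theorem v1 (m : ℕ) : EV (m + 1) 1 = 2 ^ m ∧ OO (m + 1) 1 = 2 ^ m := by
  induction m with
  | zero => rw [EV_succ, OO_succ, EV_zero, OO_zero]; norm_num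
  | succ m ih => rw [EV_succ (m + 1), OO_succ (m + 1), ih.1, ih.2, pow_succ]; constructor <;> ring

theorem v4 (m : ℕ) : EV m 4 = (3 ^ m + (-1) ^ m) / 2 ∧ OO m 4 = (3 ^ m - (-1) ^ m) / 4 := by
  induction m with
  | zero => rw [EV_zero, OO_zero]; norm_num
  | succ m ih => rw [EV_succ m, OO_succ m, ih.1, ih.2, pow_succ, pow_succ]; constructor <;> ring

theorem vm1 (k : ℕ) : EV (4 * k) (-1) = (-4) ^ k ∧ OO (4 * k) (-1) = 0 := by
  induction k with
  | zero => rw [mul_zero, EV_zero, OO_zero]; norm_num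
  | succ k ih =>
    rw [show 4 * (k + 1) = 4 * k + 1 + 1 + 1 + 1 by ring]
    simp only [EV_succ, OO_succ, ih.1, ih.2, pow_succ]
    constructor <;> ring

theorem vm3 (k : ℕ) : EV (6 * k) (-3) = 64 ^ k ∧ OO (6 * k) (-3) = 0 := by
  induction k with
  | zero => rw [mul_zero, EV_zero, OO_zero]; norm_num
  | succ k ih =>
    rw [show 6 * (k + 1) = 6 * k + 1 + 1 + 1 + 1 + 1 + 1 by ring]
    simp only [EV_succ, OO_succ, ih.1, ih.2, pow_succ]
    constructor <;> ring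

/-- Fermat -/
theorem fermat {p : ℕ} [hp : Fact p.Prime] (a : ℤ) (ha : ¬ (p : ℤ) ∣ a) : EQ p 1 ((a : ℚ) ^ (p - 1)) 1 := by
  have h := Int.ModEq.pow_card_sub_one_eq_one hp.out (n := a)
    ((Prime.coprime_iff_not_dvd (pz (p := p))).2 ha).symm
  have h2 := h.symm.dvd
  obtain ⟨c, hc⟩ := h2
  refine ⟨pow_mem (int_mem a) _, one_mem _, (c : ℚ), int_mem c, ?_⟩
  have : (((a ^ (p - 1) - 1 : ℤ)) : ℚ) = ((p * c : ℤ) : ℚ) := by rw [hc]
  push_cast at this
  rw [this, pow_one]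

theorem stmtVal : StmtVal := by
  intro p n hp hpn h3
  have L := fun y : ℤ => stmtLam p n hpn h3 y
  have hp1 : p - 1 = 2 * n := by omega
  have hpp : p = 2 * n + 1 := hpn
  have hpri := hp.out
  -- `2^(2n) = 1`, `3^(2n) = 1` modulo `p`
  have nd : ∀ a : ℕ, 0 < a → a < p → ¬ (p : ℤ) ∣ (a : ℤ) := by
    intro a h0 h1 h
    have := Nat.le_of_dvd h0 (by exact_mod_cast h)
    omega
  have F2 := fermat (p := p) 2 (by exact_mod_cast nd 2 (by norm_num) (by omega))
  have F3 := fermat (p := p) 3 (by exact_mod_cast nd 3 (by norm_num) (by omega))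
  rw [hp1] at F2 F3
  push_cast at F2 F3
  have m12 : (1 / 2 : ℚ) ∈ Zp p := by
    have := U_nat (p := p) (k := 2) (by norm_num) (by omega)
    rw [one_div]; exact_mod_cast this.2.2
  have m14 : (1 / 4 : ℚ) ∈ Zp p := by
    have : (1 / 4 : ℚ) = (1 / 2) * (1 / 2) := by norm_num
    rw [this]; exact mul_mem m12 m12
  have s3_mem : s3 p ∈ Zp p := by
    rw [s3]; split_ifs
    · exact one_mem _
    · exact neg_mem (one_mem _)
  -- `-3`
  have hm3 : EV p (-3) = 2 ^ (2 * n) ∧ OO p (-3) = s3 p * 2 ^ (2 * n) := by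
    rcases (show p % 6 = 1 ∨ p % 6 = 5 by
      have h2 : p % 2 = 1 := by omega
      have h3' : ¬ p % 3 = 0 := by
        intro h
        have := (Nat.prime_dvd_prime_iff_eq Nat.prime_three hpri).1 (Nat.dvd_of_mod_eq_zero h)
        omega
      omega) with h | h
    · obtain ⟨k, hk⟩ : ∃ k, p = 6 * k + 1 := ⟨p / 6, by omega⟩
      have hs : s3 p = 1 := by rw [s3, if_pos (by omega)]
      have hn : 2 * n = 6 * k := by omega
      rw [hs, hn, hk, EV_succ, OO_succ, (vm3 k).1, (vm3 k).2, pow_mul]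
      norm_num
    · obtain ⟨k, hk⟩ : ∃ k, p = 6 * k + 5 := ⟨p / 6, by omega⟩
      have hs : s3 p = -1 := by rw [s3, if_neg (by omega)]
      have hn : 2 * n = 6 * k + 4 := by omega
      rw [hs, hn, hk, show 6 * k + 5 = 6 * k + 1 + 1 + 1 + 1 + 1 by ring]
      simp only [EV_succ, OO_succ, (vm3 k).1, (vm3 k).2]
      rw [pow_add, pow_mul]
      norm_num
      constructor <;> ring
  have hlast : EQ p 1 ((-3 : ℚ) ^ n) (s3 p) := by
    have h := (L (-3)).mono (by norm_num : 1 ≤ 2)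
    push_cast at h
    rw [hm3.1, hm3.2] at h
    have my : (-3 : ℚ) ∈ Zp p := by exact_mod_cast int_mem (p := p) (-3)
    have e1 : EQ p 1 ((-3 : ℚ) ^ n) ((-3 : ℚ) ^ n + p * LL p (-3)) := by
      refine ⟨pow_mem my _, h.1, ?_⟩
      have : (-3 : ℚ) ^ n - ((-3 : ℚ) ^ n + p * LL p (-3)) = p * (-LL p (-3)) := by ring
      rw [this]
      exact (I_p (p := p)).mulR (neg_mem (LL_mem hpn my))
    refine (e1.trans h).trans ?_
    have e2 := ((EQ.refl (k := 1) s3_mem).mul F2).sub ((EQ.refl (k := 1) (pow_mem my n)).mul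
      (F2.sub (EQ.refl (k := 1) (one_mem _))))
    have e3 : s3 p * 1 - (-3) ^ n * (1 - 1) = s3 p := by ring
    rwa [e3] at e2
  refine ⟨?_, ?_, ?_, ?_, hlast⟩
  · have h := L 1
    have hv := v1 (2 * n)
    rw [← hpn] at hv
    push_cast at h
    rw [hv.1, hv.2] at h
    have : (2 : ℚ) ^ (2 * n) - 1 ^ n * (2 ^ (2 * n) - 1) = 1 := by rw [one_pow]; ring
    rwa [this] at h
  · have h := L (-1)
    push_cast at h
    have : OO p (-1) - (-1) ^ n * (EV p (-1) - 1) = (-1) ^ n := by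
      rcases (show p % 4 = 1 ∨ p % 4 = 3 by omega) with h4 | h4
      · obtain ⟨k, hk⟩ : ∃ k, p = 4 * k + 1 := ⟨p / 4, by omega⟩
        have hn : n = 2 * k := by omega
        rw [hk, hn, EV_succ, OO_succ, (vm1 k).1, (vm1 k).2, pow_mul]
        norm_num
      · obtain ⟨k, hk⟩ : ∃ k, p = 4 * k + 3 := ⟨p / 4, by omega⟩
        have hn : n = 2 * k + 1 := by omega
        rw [hk, hn, show 4 * k + 3 = 4 * k + 1 + 1 + 1 by ring]
        simp only [EV_succ, OO_succ, (vm1 k).1, (vm1 k).2]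
        rw [pow_succ, pow_mul]
        norm_num
        ring
    rwa [this] at h
  · have h := L (-3)
    push_cast at h
    rw [hm3.1, hm3.2] at h
    refine h.trans ⟨h.2.1, s3_mem, ?_⟩
    have : s3 p * 2 ^ (2 * n) - (-3) ^ n * (2 ^ (2 * n) - 1) - s3 p =
        (-((-3 : ℚ) ^ n - s3 p)) * (2 ^ (2 * n) - 1) := by ring
    rw [this]
    exact hlast.2.2.neg.mul F2.2.2
  · have h := L 4
    push_cast at h
    have hv := v4 p
    have hs : ((-1 : ℚ)) ^ p = -1 := by rw [hpn, pow_succ, pow_mul]; norm_num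
    rw [hs] at hv
    rw [hv.1, hv.2] at h
    have hf3 : I p 1 ((3 : ℚ) ^ p - 3) := by
      have : (3 : ℚ) ^ p - 3 = 3 * (3 ^ (2 * n) - 1) := by rw [hpn, pow_succ]; ring
      rw [this]
      exact F3.2.2.mulL (by exact_mod_cast nat_mem (p := p) 3)
    have h43 : ((7 : ℚ) - 3 ^ p) / 4 ∈ Zp p := by
      rw [div_eq_mul_one_div]
      exact mul_mem (sub_mem (by exact_mod_cast nat_mem (p := p) 7)
        (pow_mem (by exact_mod_cast nat_mem (p := p) 3) _)) m14
    refine h.trans ⟨h.2.1, h43, ?_⟩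
    have h4n : (4 : ℚ) ^ n = 2 ^ (2 * n) := by rw [pow_mul]; norm_num
    have : ((3 : ℚ) ^ p - -1) / 4 - 4 ^ n * ((3 ^ p + -1) / 2 - 1) - (7 - 3 ^ p) / 4 =
        (3 ^ p - 3) * (1 / 2) * (-(2 ^ (2 * n) - 1)) := by rw [h4n]; ring
    rw [this]
    exact (hf3.mulR m12).mul F2.2.2.neg

end Pool.Agent.K3h4.Tri
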