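import Mathlib
import Pool.Agent.K3h4.Tri.Val
import Pool.Agent.K3h4.Tri.Leg

set_option autoImplicit false

/-!
Alternating sums of Legendre polynomials modulo `p^2`, and the third congruence of MP_20e244_nt.
-/

namespace Pool.Agent.K3h4.Tri

open Finset Pool.Agent.R439.PL Pool.Agent.R439.PL.S4 Pool.Agent.R488.Tri

/-- numerators of the even coefficients -/
def ge (n i : ℕ) : ℚ := (-1) ^ i * ((2 * i + (2 * n + 1)).choose (2 * i) : ℚ) *
  ((n + i + (n - i)).choose (n + i) : ℚ) / 4 ^ n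

/-- numerators of the odd coefficients -/
def go (n i : ℕ) : ℚ := (-1) ^ i * ((2 * i + (2 * n + 1)).choose (2 * i) : ℚ) * (2 * ((n : ℚ) - i)) *
  ((n + i + (n - i)).choose (n + i) : ℚ) / ((2 * (i : ℚ) + 1) * 4 ^ n)

theorem ce_exact (n i : ℕ) (hi : i ≤ n) : (4 * (i : ℚ) + 1) * ce n i = (2 * (n : ℚ) + 1) * ge n i := by
  obtain ⟨m, rfl⟩ : ∃ m, n = i + m := ⟨n - i, by omega⟩
  rw [ge, ce, Nat.cast_add_choose ℚ, Nat.cast_add_choose ℚ, show i + m - i = m by omega,
    show 2 * (i + m) + 2 * i + 1 = 2 * i + (2 * (i + m) + 1) by ring,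
    show i + m + i + m = 2 * (i + m) by ring, Nat.factorial_succ (2 * (i + m))]
  have f1 : ((2 * i).factorial : ℚ) ≠ 0 := by positivity
  have f2 : ((2 * (i + m)).factorial : ℚ) ≠ 0 := by positivity
  have f3 : ((i + m + i).factorial : ℚ) ≠ 0 := by positivity
  have f4 : (m.factorial : ℚ) ≠ 0 := by positivity
  have f5 : (4 : ℚ) ^ (i + m) ≠ 0 := by positivity
  have g1 : (2 * ((i : ℚ) + m) + 1) ≠ 0 := by positivity
  have g3 : (4 * (i : ℚ) + 1) ≠ 0 := by positivity
  push_cast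
  field_simp

theorem co_exact (n i : ℕ) (hi : i < n) : (4 * (i : ℚ) + 3) * co n i = (2 * (n : ℚ) + 1) * go n i := by
  obtain ⟨m, rfl⟩ : ∃ m, n = i + (m + 1) := ⟨n - i - 1, by omega⟩
  rw [go, co, Nat.cast_add_choose ℚ, Nat.cast_add_choose ℚ, show i + (m + 1) - i = m + 1 by omega,
    show i + (m + 1) - 1 - i = m by omega,
    show 2 * (i + (m + 1)) + 2 * i + 1 = 2 * i + (2 * (i + (m + 1)) + 1) by ring,
    show i + (m + 1) + i + (m + 1) = 2 * (i + (m + 1)) by ring, Nat.factorial_succ (2 * (i + (m + 1))),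
    Nat.factorial_succ (2 * i), Nat.factorial_succ m]
  have f1 : ((2 * i).factorial : ℚ) ≠ 0 := by positivity
  have f2 : ((2 * (i + (m + 1))).factorial : ℚ) ≠ 0 := by positivity
  have f3 : ((i + (m + 1) + i).factorial : ℚ) ≠ 0 := by positivity
  have f4 : (m.factorial : ℚ) ≠ 0 := by positivity
  have f5 : (4 : ℚ) ^ (i + (m + 1)) ≠ 0 := by positivity
  have g1 : (2 * ((i : ℚ) + (m + 1)) + 1) ≠ 0 := by positivity
  have g3 : (4 * (i : ℚ) + 3) ≠ 0 := by positivity
  have g4 : (2 * (i : ℚ) + 1) ≠ 0 := by positivity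
  have g5 : ((m : ℚ) + 1) ≠ 0 := by positivity
  push_cast
  have e : ((i : ℚ) + (m + 1) - i) = m + 1 := by ring
  rw [e]
  field_simp

variable {p n : ℕ} [hp : Fact p.Prime]

/-- `C(p+k,k) = 1` modulo `p` -/
theorem choose_pp (k : ℕ) (hk : k < p) : EQ p 1 ((k + p).choose k : ℚ) 1 := by
  induction k with
  | zero => simpa using EQ.refl (k := 1) (one_mem (Zp p))
  | succ k ih =>
    have ih := ih (by omega)
    have h1 := Nat.add_one_mul_choose_eq (k + p) k
    have h2 : ((k : ℚ) + p + 1) * ((k + p).choose k : ℚ) = ((k + p + 1).choose (k + 1) : ℚ) * ((k : ℚ) + 1) := by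
      exact_mod_cast h1
    have hu := U_nat (p := p) (k := k + 1) (by omega) hk
    push_cast at hu
    refine ⟨nat_mem _, one_mem _, ?_⟩
    have h3 : ((k + 1 + p).choose (k + 1) : ℚ) - 1 = (((k + p).choose k : ℚ) - 1) +
        p * (((k + p).choose k : ℚ) * ((k : ℚ) + 1)⁻¹) := by
      have := hu.1
      rw [show k + 1 + p = k + p + 1 by ring]
      field_simp
      linear_combination (-1) * h2
    rw [h3]
    exact ih.2.2.add ((I_p (p := p)).mulR (mul_mem (nat_mem _) hu.2.2))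

theorem ge_eq (hpn : p = 2 * n + 1) (h3 : 3 < p) {i : ℕ} (hi : i ≤ n) :
    EQ p 1 (ge n i) ((-1) ^ n * (-1) ^ (2 * i)) := by
  have h1 := choose_pp (p := p) (2 * i) (by omega)
  have h2 := choose_pm1 (p := p) (n + i) (by omega)
  rw [show p - 1 = n + i + (n - i) by omega] at h2
  have h4 : EQ p 1 ((4 : ℚ) ^ n) 1 := by
    have := fermat (p := p) 2 (by
      intro h
      have := Int.le_of_dvd (by norm_num) h
      omega)
    push_cast at this
    rwa [show p - 1 = 2 * n by omega, pow_mul, show (2 : ℚ) ^ 2 = 4 by norm_num] at this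
  have u4 : U p ((4 : ℚ) ^ n) := h4.symm.unit one_pos U.one
  have h := (((EQ.refl (k := 1) (neg_mem' (p := p) i)).mul h1).mul h2).div one_pos h4 u4
  rw [ge, ← hpn]
  have e : (-1 : ℚ) ^ i * 1 * (-1) ^ (n + i) / 1 = (-1) ^ n * (-1) ^ (2 * i) := by
    rw [pow_add, show 2 * i = i + i by ring, pow_add]; ring
  rwa [e] at h

theorem go_eq (hpn : p = 2 * n + 1) (h3 : 3 < p) {i : ℕ} (hi : i < n) :
    EQ p 1 (go n i) ((-1) ^ n * (-1) ^ (2 * i + 1)) := by
  have h1 := ge_eq (p := p) hpn h3 hi.le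
  have hu := U_nat (p := p) (k := 2 * i + 1) (by omega) (by omega)
  push_cast at hu
  have hpq : (p : ℚ) = 2 * n + 1 := by exact_mod_cast hpn
  have h2 : EQ p 1 (2 * ((n : ℚ) - i) / (2 * i + 1)) (-1) := by
    have a := hu.1
    have m1 : 2 * ((n : ℚ) - i) / (2 * i + 1) ∈ Zp p := by
      rw [div_eq_mul_inv]
      exact mul_mem (mul_mem n2 (sub_mem (nat_mem n) (nat_mem i))) hu.2.2
    refine ⟨m1, neg_mem (one_mem _), ?_⟩
    have e : 2 * ((n : ℚ) - i) / (2 * i + 1) - -1 = p * (2 * (i : ℚ) + 1)⁻¹ := by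
      rw [hpq]; field_simp; ring
    rw [e]
    exact (I_p (p := p)).mulR hu.2.2
  have h := h1.mul h2
  have e1 : go n i = ge n i * (2 * ((n : ℚ) - i) / (2 * i + 1)) := by
    rw [go, ge]
    have a := hu.1
    have b : (4 : ℚ) ^ n ≠ 0 := by positivity
    field_simp
  rw [e1]
  have e2 : (-1 : ℚ) ^ n * (-1) ^ (2 * i) * -1 = (-1) ^ n * (-1) ^ (2 * i + 1) := by rw [pow_succ]; ring
  rwa [e2] at h

/-- coefficients, by degree -/
def cf (n r : ℕ) : ℚ := if r % 2 = 0 then ce n (r / 2) else co n (r / 2)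

/-- numerators of the coefficients, by degree -/
def cg (n r : ℕ) : ℚ := if r % 2 = 0 then ge n (r / 2) else go n (r / 2)

theorem sum_parity (f : ℕ → ℚ) (n : ℕ) : ∑ r ∈ range (2 * n + 1), f r =
    ∑ i ∈ range (n + 1), f (2 * i) + ∑ i ∈ range n, f (2 * i + 1) := by
  induction n with
  | zero => simp
  | succ n ih =>
    rw [show 2 * (n + 1) + 1 = 2 * n + 1 + 1 + 1 by ring, sum_range_succ, sum_range_succ, ih,
      sum_range_succ (fun i => f (2 * i)) (n + 1), sum_range_succ (fun i => f (2 * i + 1)) n,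
      show 2 * n + 1 + 1 = 2 * (n + 1) by ring]
    ring

theorem leg_cf (v : ℚ) (n : ℕ) : ∑ k ∈ range (2 * n + 1), eps k * P v k =
    ∑ r ∈ range (2 * n + 1), cf n r * v ^ r := by
  rw [stmtLeg v n, sum_parity]
  congr 1
  · refine sum_congr rfl fun i _ => ?_
    rw [cf, if_pos (by omega), show 2 * i / 2 = i by omega]
  · refine sum_congr rfl fun i _ => ?_
    rw [cf, if_neg (by omega), show (2 * i + 1) / 2 = i by omega]

theorem P_one (k : ℕ) : P 1 k = 1 := by
  induction k using Nat.twoStepInduction with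
  | zero => rw [P]
  | one => rw [P]
  | more k ih1 ih2 =>
    rw [P, ih1, ih2]
    have : ((k : ℚ) + 2) ≠ 0 := by positivity
    field_simp
    ring

theorem eps_sum (n : ℕ) : ∑ k ∈ range (2 * n + 1), eps k * P 1 k = 1 := by
  induction n with
  | zero => simp [eps, P]
  | succ n ih =>
    rw [show 2 * (n + 1) + 1 = 2 * n + 1 + 1 + 1 by ring, sum_range_succ, sum_range_succ, ih,
      eps_odd, show 2 * n + 1 + 1 = 2 * (n + 1) by ring, eps_even, P_one, P_one, pow_succ]
    ring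

/-- the alternating sum of Legendre polynomials -/
theorem leg_sum (hpn : p = 2 * n + 1) (h3 : 3 < p) {v : ℚ} (hv : v ∈ Zp p) :
    EQ p 2 (∑ k ∈ range p, eps k * P v k) (v ^ n + (-1) ^ n * (p * LL p (-v))) := by
  have hpq : (p : ℚ) = 2 * n + 1 := by exact_mod_cast hpn
  have key : ∀ w : ℚ, w ∈ Zp p → EQ p 2 (∑ k ∈ range p, eps k * P w k)
      (cg n n * w ^ n + (-1) ^ n * (p * LL p (-w))) := by
    intro w hw
    have h := sum_lem (p := p) (n := n) hpn (f := cf n) (g := cg n) (s := (-1) ^ n) (y := w) hw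
      (neg_mem' n) (fun r hr => ?_) (fun r hr => ?_)
    · have e : ∑ k ∈ range p, eps k * P w k = ∑ i ∈ range p, cf n i * w ^ i := by
        rw [show range p = range (2 * n + 1) by rw [hpn]]; exact leg_cf w n
      rw [e]; exact h
    · rw [cf, cg]
      rcases Nat.mod_two_eq_zero_or_one r with h | h
      · rw [if_pos h, if_pos h]
        obtain ⟨i, rfl⟩ : ∃ i, r = 2 * i := ⟨r / 2, by omega⟩
        have e := ce_exact n i (by omega)
        rw [show 2 * i / 2 = i by omega, hpq, ← e]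
        push_cast; ring
      · rw [if_neg (by omega), if_neg (by omega)]
        obtain ⟨i, rfl⟩ : ∃ i, r = 2 * i + 1 := ⟨r / 2, by omega⟩
        have e := co_exact n i (by omega)
        rw [show (2 * i + 1) / 2 = i by omega, hpq, ← e]
        push_cast; ring
    · rw [cg]
      rcases Nat.mod_two_eq_zero_or_one r with h | h
      · rw [if_pos h]
        obtain ⟨i, rfl⟩ : ∃ i, r = 2 * i := ⟨r / 2, by omega⟩
        rw [show 2 * i / 2 = i by omega]
        exact ge_eq hpn h3 (by omega)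
      · rw [if_neg (by omega)]
        obtain ⟨i, rfl⟩ : ∃ i, r = 2 * i + 1 := ⟨r / 2, by omega⟩
        rw [show (2 * i + 1) / 2 = i by omega]
        exact go_eq hpn h3 (by omega)
  -- the middle coefficient
  have hmid : EQ p 2 (cg n n) 1 := by
    have h1 := key 1 (one_mem _)
    have e1 : ∑ k ∈ range p, eps k * P 1 k = 1 := by
      rw [show range p = range (2 * n + 1) by rw [hpn]]; exact eps_sum n
    rw [e1, one_pow, mul_one] at h1
    have h2 := (stmtVal p n hpn h3).2.1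
    have h4 : EQ p 2 ((-1 : ℚ) ^ n * (p * LL p (-1))) 0 := by
      have h5 := (EQ.refl (k := 2) (neg_mem' (p := p) n)).mul (h2.sub (EQ.refl (k := 2) (neg_mem' (p := p) n)))
      have e2 : (-1 : ℚ) ^ n * ((-1) ^ n + p * LL p (-1) - (-1) ^ n) = (-1) ^ n * (p * LL p (-1)) := by ring
      have e3 : (-1 : ℚ) ^ n * ((-1) ^ n - (-1) ^ n) = 0 := by ring
      rwa [e2, e3] at h5
    have e4 : cg n n + (-1) ^ n * (p * LL p (-1)) - (-1) ^ n * (p * LL p (-1)) = cg n n := by ring
    have h7 : EQ p 2 (cg n n + (-1) ^ n * (p * LL p (-1)) - (-1) ^ n * (p * LL p (-1))) (1 - 0) :=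
      (h1.symm.sub (EQ.refl h4.1)).trans ((EQ.refl (k := 2) (one_mem (Zp p))).sub h4)
    rwa [e4, sub_zero] at h7
  refine (key v hv).trans ?_
  have m1 : (-1 : ℚ) ^ n * (p * LL p (-v)) ∈ Zp p :=
    mul_mem (neg_mem' n) (mul_mem p_mem (LL_mem hpn (neg_mem hv)))
  have h := (hmid.mul (EQ.refl (k := 2) (pow_mem hv n))).add (EQ.refl (k := 2) m1)
  rwa [one_mul] at h

end Pool.Agent.K3h4.Tri
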