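import Mathlib
import Pool.Agent.K3h4.Tri.Three

set_option autoImplicit false

/-!
The five congruences of MP_20e244_nt.
-/

namespace Pool.Agent.K3h4.Tri

open Finset Pool.Agent.R439.PL Pool.Agent.R439.PL.S4 Pool.Agent.R488.Tri

variable {p n : ℕ} [hp : Fact p.Prime]

theorem not_dvd_small (h3 : 3 < p) {a : ℤ} (h0 : 0 < a) (h1 : a ≤ 3) : ¬ (p : ℤ) ∣ a := by
  intro h
  have := Int.le_of_dvd h0 h
  omega

theorem U2' (h3 : 3 < p) : U p (2 : ℚ) := by
  exact_mod_cast U_int (p := p) (a := 2) (not_dvd_small h3 (by norm_num) (by norm_num))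

theorem U3' (h3 : 3 < p) : U p (3 : ℚ) := by
  exact_mod_cast U_int (p := p) (a := 3) (not_dvd_small h3 (by norm_num) (by norm_num))

theorem U4' (h3 : 3 < p) : U p (4 : ℚ) := by
  have := (U2' (p := p) h3).pow 2
  norm_num at this
  exact this

theorem U16' (h3 : 3 < p) : U p (16 : ℚ) := by
  have := (U2' (p := p) h3).pow 4
  norm_num at this
  exact this

theorem s3_mem : s3 p ∈ Zp p := by
  rw [s3]; split_ifs
  · exact one_mem _
  · exact neg_mem (one_mem _)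

theorem s3_sq : s3 p * s3 p = 1 := by
  rw [s3]; split_ifs <;> norm_num

/-! ### The sums with `T_{2j}` -/

theorem W_congr (hpn : p = 2 * n + 1) (h3 : 3 < p) (x : ℤ) :
    EQ p 2 (∑ j ∈ range (n + 1), ((2 * j).choose j : ℚ) / 16 ^ j * (W (2 * j) x : ℚ))
      ((-1) ^ n * ((-(x : ℚ)) ^ n + p * LL p (-x))) := by
  have h1 : EQ p 2 (∑ j ∈ range (n + 1), ((2 * j).choose j : ℚ) / 16 ^ j * (W (2 * j) x : ℚ))
      (∑ j ∈ range (n + 1), (-1) ^ j * ((n + j).choose (2 * j) : ℚ) * (W (2 * j) x : ℚ)) := by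
    refine EQ.sum fun j hj => ?_
    have hj' : j ≤ n := by have := mem_range.1 hj; omega
    have h := (halfc (p := p) hpn hj').mul (EQ.refl (k := 2) (((U16' (p := p) h3).pow j).2.2))
    have e : (-16 : ℚ) ^ j * ((n + j).choose (2 * j) : ℚ) * (16 ^ j)⁻¹ =
        (-1) ^ j * ((n + j).choose (2 * j) : ℚ) := by
      rw [show (-16 : ℚ) = (-1) * 16 by norm_num, mul_pow]
      have : (16 : ℚ) ^ j ≠ 0 := by positivity
      field_simp
    rw [e, ← div_eq_mul_inv] at h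
    exact h.mul (EQ.refl (int_mem _))
  refine h1.trans ?_
  have h2 := W_sum n x
  have h3' : ((∑ j ∈ range (n + 1), (-1 : ℤ) ^ (n + j) * ((n + j).choose (2 * j) : ℤ) * W (2 * j) x : ℤ) : ℚ)
      = ((∑ k ∈ range (2 * n + 1), ((2 * n + 1 + k).choose (2 * k + 1) : ℤ) *
          ((2 * k).choose k : ℤ) * x ^ k : ℤ) : ℚ) := by rw [h2]
  push_cast at h3'
  have h4 : ∑ j ∈ range (n + 1), (-1) ^ j * ((n + j).choose (2 * j) : ℚ) * (W (2 * j) x : ℚ) =
      (-1) ^ n * ∑ i ∈ range p, (((p + i).choose (2 * i + 1) : ℚ) * ((2 * i).choose i : ℚ)) * (x : ℚ) ^ i := by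
    have e1 : ∑ i ∈ range p, (((p + i).choose (2 * i + 1) : ℚ) * ((2 * i).choose i : ℚ)) * (x : ℚ) ^ i =
        ∑ k ∈ range (2 * n + 1), ((2 * n + 1 + k).choose (2 * k + 1) : ℚ) *
          ((2 * k).choose k : ℚ) * (x : ℚ) ^ k := by rw [← hpn]
    rw [e1, ← h3', mul_sum]
    refine sum_congr rfl fun j _ => ?_
    have h4 : ((-1 : ℚ)) ^ n * (-1) ^ n = 1 := by rw [← mul_pow]; norm_num
    rw [pow_add]
    linear_combination (-((-1) ^ j * ((n + j).choose (2 * j) : ℚ) * (W (2 * j) x : ℚ))) * h4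
  rw [h4]
  exact (EQ.refl (neg_mem' n)).mul (theta hpn x)

theorem T_W (m : ℕ) (s : ℤ) : T m (2 + 2 * s) (s ^ 2) = W m s := by
  rw [T_eq, W]

theorem T_41 (m : ℕ) : T m 4 1 = W m 1 := by
  have := T_W m 1
  norm_num at this
  exact this

theorem T_89 (m : ℕ) : T m 8 9 = W m 3 := by
  have := T_W m 3
  norm_num at this
  exact this

theorem T_34 (j : ℕ) : (4 : ℤ) ^ j * T (2 * j) 3 4 = W (2 * j) (-4) := by
  have h := T_eq (2 * j) (-1) 2
  norm_num at h
  rw [h, W, mul_sum]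
  refine sum_congr rfl fun i hi => ?_
  obtain ⟨k, hk⟩ : ∃ k, 2 * j = i + k := ⟨2 * j - i, by have := mem_range.1 hi; omega⟩
  have e4 : (4 : ℤ) ^ j = 2 ^ i * 2 ^ k := by
    rw [← pow_add, ← hk, pow_mul]; norm_num
  rw [show 2 * j - i = k by omega, e4]
  have e5 : ((-1 : ℤ)) ^ k = (-1) ^ i := by
    have : ((-1 : ℤ)) ^ k * (-1) ^ i = 1 := by
      rw [← pow_add, show k + i = 2 * j by omega, pow_mul]; norm_num
    have h2 : ((-1 : ℤ)) ^ i * (-1) ^ i = 1 := by rw [← mul_pow]; norm_num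
    have h3 : ((-1 : ℤ)) ^ i ≠ 0 := pow_ne_zero _ (by norm_num)
    exact mul_right_cancel₀ h3 (this.trans h2.symm)
  rw [e5, show (-4 : ℤ) = (-1) * (2 * 2) by norm_num, mul_pow, mul_pow]
  ring

theorem two_ (hpn : p = 2 * n + 1) (h3 : 3 < p) :
    EQ p 2 (∑ j ∈ range (n + 1), (T (2 * j) 4 1 : ℚ) * ((2 * j).choose j : ℚ) / 16 ^ j) 1 := by
  have h := W_congr (p := p) hpn h3 1
  have h2 := (EQ.refl (k := 2) (neg_mem' (p := p) n)).mul (stmtVal p n hpn h3).2.1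
  push_cast at h
  have h4 : ((-1 : ℚ)) ^ n * (-1) ^ n = 1 := by rw [← mul_pow]; norm_num
  rw [h4] at h2
  have e : ∑ j ∈ range (n + 1), (T (2 * j) 4 1 : ℚ) * ((2 * j).choose j : ℚ) / 16 ^ j =
      ∑ j ∈ range (n + 1), ((2 * j).choose j : ℚ) / 16 ^ j * (W (2 * j) 1 : ℚ) :=
    sum_congr rfl fun j _ => by rw [T_41]; ring
  rw [e]
  exact h.trans h2

theorem four_ (hpn : p = 2 * n + 1) (h3 : 3 < p) :
    EQ p 2 (∑ j ∈ range (n + 1), (T (2 * j) 3 4 : ℚ) * ((2 * j).choose j : ℚ) / 4 ^ j)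
      ((7 - 3 ^ p) / 4 * (-1) ^ n) := by
  have h := W_congr (p := p) hpn h3 (-4)
  have h2 := (EQ.refl (k := 2) (neg_mem' (p := p) n)).mul (stmtVal p n hpn h3).2.2.2.1
  push_cast at h
  rw [neg_neg] at h
  have e : ∑ j ∈ range (n + 1), (T (2 * j) 3 4 : ℚ) * ((2 * j).choose j : ℚ) / 4 ^ j =
      ∑ j ∈ range (n + 1), ((2 * j).choose j : ℚ) / 16 ^ j * (W (2 * j) (-4) : ℚ) := by
    refine sum_congr rfl fun j _ => ?_
    rw [← T_34]
    push_cast
    have h16 : (16 : ℚ) ^ j = 4 ^ j * 4 ^ j := by rw [← mul_pow]; norm_num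
    have h4 : (4 : ℚ) ^ j ≠ 0 := by positivity
    rw [h16]
    field_simp
  rw [e, mul_comm ((7 - (3 : ℚ) ^ p) / 4)]
  exact h.trans h2

theorem five_ (hpn : p = 2 * n + 1) (h3 : 3 < p) :
    EQ p 2 (∑ j ∈ range (n + 1), (T (2 * j) 8 9 : ℚ) * ((2 * j).choose j : ℚ) / 16 ^ j)
      ((-1) ^ n * s3 p) := by
  have h := W_congr (p := p) hpn h3 3
  have h2 := (EQ.refl (k := 2) (neg_mem' (p := p) n)).mul (stmtVal p n hpn h3).2.2.1
  push_cast at h
  have e : ∑ j ∈ range (n + 1), (T (2 * j) 8 9 : ℚ) * ((2 * j).choose j : ℚ) / 16 ^ j =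
      ∑ j ∈ range (n + 1), ((2 * j).choose j : ℚ) / 16 ^ j * (W (2 * j) 3 : ℚ) :=
    sum_congr rfl fun j _ => by rw [T_89]; ring
  rw [e]
  exact h.trans h2

/-! ### The Catalan sum -/

theorem del_dvd {m i : ℕ} (h0 : 0 < i) (hi : i < p) (him : i ≤ m) (hmi : m - i < p) (hm : p ≤ m + i) :
    p ∣ (m + i).choose (2 * i) * (2 * i).choose i := by
  have h4 : (m + i).choose (2 * i) * (2 * i).factorial * (m - i).factorial =
      (m + i).factorial := by
    have := Nat.choose_mul_factorial_mul_factorial (n := m + i) (k := 2 * i) (by omega)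
    rwa [show m + i - 2 * i = m - i by omega] at this
  have h5 : (2 * i).choose i * i.factorial * i.factorial = (2 * i).factorial := by
    have := Nat.choose_mul_factorial_mul_factorial (n := 2 * i) (k := i) (by omega)
    rwa [show 2 * i - i = i by omega] at this
  have h6 : ((m + i).choose (2 * i) * (2 * i).choose i) * (i.factorial * i.factorial * (m - i).factorial) =
      (m + i).factorial := by
    rw [← h4, ← h5]; ring
  have h7 : p ∣ ((m + i).choose (2 * i) * (2 * i).choose i) *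
      (i.factorial * i.factorial * (m - i).factorial) := by
    rw [h6]; exact (hp.out.dvd_factorial).2 hm
  rcases (Nat.Prime.dvd_mul hp.out).1 h7 with h | h
  · exact h
  · exfalso
    rcases (Nat.Prime.dvd_mul hp.out).1 h with h | h
    · rcases (Nat.Prime.dvd_mul hp.out).1 h with h | h
      · exact absurd ((hp.out.dvd_factorial).1 h) (by omega)
      · exact absurd ((hp.out.dvd_factorial).1 h) (by omega)
    · exact absurd ((hp.out.dvd_factorial).1 h) (by omega)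

theorem P_pm1 (hpn : p = 2 * n + 1) : EQ p 1 (P 3 (2 * n)) 1 := by
  rw [stmtDel (2 * n)]
  have h1 : EQ p 1 (∑ i ∈ range (2 * n + 1), (((2 * n + i).choose (2 * i) * (2 * i).choose i : ℕ) : ℚ))
      (∑ i ∈ range (2 * n + 1), (if i = 0 then 1 else 0)) := by
    refine EQ.sum fun i hi => ?_
    have hi' := mem_range.1 hi
    by_cases h0 : i = 0
    · subst h0; simpa using EQ.refl (k := 1) (one_mem (Zp p))
    · rw [if_neg h0]
      exact EQ.of_I (I_nat (del_dvd (by omega) (by omega) (by omega) (by omega) (by omega)))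
  rwa [sum_ite_eq' , if_pos (by simp)] at h1

theorem P_p (hpn : p = 2 * n + 1) : EQ p 1 (P 3 (2 * n + 1)) 3 := by
  rw [stmtDel (2 * n + 1), sum_range_succ]
  have h1 : EQ p 1 (∑ i ∈ range (2 * n + 1), (((2 * n + 1 + i).choose (2 * i) * (2 * i).choose i : ℕ) : ℚ))
      (∑ i ∈ range (2 * n + 1), (if i = 0 then 1 else 0)) := by
    refine EQ.sum fun i hi => ?_
    have hi' := mem_range.1 hi
    by_cases h0 : i = 0
    · subst h0; simpa using EQ.refl (k := 1) (one_mem (Zp p))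
    · rw [if_neg h0]
      exact EQ.of_I (I_nat (del_dvd (by omega) (by omega) (by omega) (by omega) (by omega)))
  rw [sum_ite_eq' , if_pos (by simp)] at h1
  have h2 : EQ p 1 ((((2 * n + 1 + (2 * n + 1)).choose (2 * (2 * n + 1)) * (2 * (2 * n + 1)).choose (2 * n + 1) : ℕ)) : ℚ) 2 := by
    rw [← hpn, show p + p = 2 * p by ring, Nat.choose_self, one_mul]
    exact (choose_2p (p := p)).mono (by norm_num)
  have h := h1.add h2
  norm_num at h ⊢
  exact h

theorem three_ (hpn : p = 2 * n + 1) (h3 : 3 < p) :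
    EQ p 2 (∑ j ∈ range (n + 1), (T (2 * j) 4 1 : ℚ) * (catalan j : ℚ) / 16 ^ j)
      (4 / 3 * ((-1) ^ n * s3 p - p * (-1) ^ n)) := by
  have hpq : (p : ℚ) = 2 * n + 1 := by exact_mod_cast hpn
  obtain ⟨S, hS⟩ : ∃ S : ℚ, S = ∑ j ∈ range (n + 1),
    ((n + j).choose (2 * j) : ℚ) * ((-1) ^ j * (W (2 * j) 1 : ℚ)) / ((j : ℚ) + 1) := ⟨_, rfl⟩
  have h1 : EQ p 2 (∑ j ∈ range (n + 1), (T (2 * j) 4 1 : ℚ) * (catalan j : ℚ) / 16 ^ j) S := by
    rw [hS]
    refine EQ.sum fun j hj => ?_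
    have hj' : j ≤ n := by have := mem_range.1 hj; omega
    have hu := U_nat (p := p) (k := j + 1) (by omega) (by omega)
    push_cast at hu
    have hc : (catalan j : ℚ) = ((2 * j).choose j : ℚ) * ((j : ℚ) + 1)⁻¹ := by
      have := succ_mul_catalan_eq_centralBinom j
      have h2 : ((j : ℚ) + 1) * (catalan j : ℚ) = ((2 * j).choose j : ℚ) := by
        rw [Nat.centralBinom] at this
        exact_mod_cast this
      have := hu.1
      rw [← h2]
      field_simp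
    have h := ((halfc (p := p) hpn hj').mul (EQ.refl (k := 2) (((U16' (p := p) h3).pow j).2.2))).mul
      (EQ.refl (k := 2) (mul_mem hu.2.2 (int_mem (p := p) (W (2 * j) 1))))
    have e1 : (-16 : ℚ) ^ j * ((n + j).choose (2 * j) : ℚ) * (16 ^ j)⁻¹ * (((j : ℚ) + 1)⁻¹ * (W (2 * j) 1 : ℚ)) =
        ((n + j).choose (2 * j) : ℚ) * ((-1) ^ j * (W (2 * j) 1 : ℚ)) / ((j : ℚ) + 1) := by
      rw [show (-16 : ℚ) = (-1) * 16 by norm_num, mul_pow]
      have : (16 : ℚ) ^ j ≠ 0 := by positivity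
      have := hu.1
      field_simp
    have e2 : (T (2 * j) 4 1 : ℚ) * (catalan j : ℚ) / 16 ^ j =
        ((2 * j).choose j : ℚ) * (16 ^ j)⁻¹ * (((j : ℚ) + 1)⁻¹ * (W (2 * j) 1 : ℚ)) := by
      rw [hc, T_41]; ring
    rw [e1] at h
    rw [e2]
    exact h
  have hAA := catal_AA stmtDel n
  rw [← hS] at hAA
  have hAE := AE n
  have hleg := leg_sum (p := p) hpn h3 (v := 3) (U3' (p := p) h3).2.1
  have hs := (stmtVal p n hpn h3).2.2.1
  obtain ⟨E, hE⟩ : ∃ E : ℚ, E = ∑ k ∈ range (2 * n + 1), eps k * P 3 k := ⟨_, rfl⟩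
  have hleg2 : EQ p 2 E ((-1) ^ n * s3 p) := by
    have e0 : ∑ k ∈ range p, eps k * P 3 k = E := by
      rw [hE]; rw [show range p = range (2 * n + 1) by rw [hpn]]
    rw [e0] at hleg
    refine hleg.trans ?_
    have h := (EQ.refl (k := 2) (neg_mem' (p := p) n)).mul hs
    have e1 : (3 : ℚ) ^ n + (-1) ^ n * (p * LL p (-3)) = (-1) ^ n * ((-3) ^ n + p * LL p (-3)) := by
      have e2 : (3 : ℚ) ^ n = (-1) ^ n * (-3) ^ n := by rw [← mul_pow]; norm_num
      rw [e2]; ring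
    rw [e1]; exact h
  rw [← hE] at hAE
  -- `S = (4/3) (E - (-1)^n p)` modulo `p^2`
  obtain ⟨Q, hQ⟩ : ∃ Q : ℚ, Q = P 3 (2 * n) + P 3 (2 * n + 1) := ⟨_, rfl⟩
  have hQ4 : EQ p 1 Q 4 := by
    have := (P_pm1 (p := p) hpn).add (P_p (p := p) hpn)
    rw [hQ]; norm_num at this ⊢; exact this
  rw [← hQ] at hAE
  refine h1.trans ?_
  have hSm := h1.2.1
  have u3 := U3' (p := p) h3
  have m43 : (4 / 3 : ℚ) ∈ Zp p := by
    rw [div_eq_mul_inv]; exact mul_mem (U4' (p := p) h3).2.1 u3.2.2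
  refine ⟨hSm, mul_mem m43 (sub_mem (mul_mem (neg_mem' n) s3_mem) (mul_mem p_mem (neg_mem' n))), ?_⟩
  have key : S - 4 / 3 * ((-1) ^ n * s3 p - p * (-1) ^ n) = (p : ℚ) ^ 2 * S +
      4 / 3 * (E - (-1) ^ n * s3 p) - p * (Q - 4) * ((-1) ^ n * (1 / 3)) := by
    have e1 : (n : ℚ) * (n + 1) = ((p : ℚ) ^ 2 - 1) / 4 := by rw [hpq]; ring
    rw [e1] at hAA
    rw [← hpq] at hAE
    have hAE' : 3 * AA n + E = (-1) ^ n * p / 4 * Q := hAE
    linear_combination (-4) * hAA - (4 / 3) * hAE'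
  rw [key]
  have m13 : (1 / 3 : ℚ) ∈ Zp p := by rw [one_div]; exact u3.2.2
  refine ((?_ : I p 2 _).add (hleg2.2.2.mulL m43)).sub ?_
  · exact ⟨S, hSm, rfl⟩
  · exact (((I_p (p := p)).mul hQ4.2.2)).mulR (mul_mem (neg_mem' n) m13)

end Pool.Agent.K3h4.Tri
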