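import Mathlib
import Pool.Agent.K3h4.Tri.Five

set_option autoImplicit false

/-!
The first congruence of MP_20e244_nt, and the Legendre symbols.
-/

namespace Pool.Agent.K3h4.Tri

open Finset Pool.Agent.R439.PL Pool.Agent.R439.PL.S4 Pool.Agent.R488.Tri

/-! ### The Chebyshev type sums at `-16/3` -/

/-- `∑ C(n+i,2i) y^i` and `∑ C(n+1+i,2i+1) y^i` -/
def AS (n : ℕ) (y : ℚ) : ℚ := ∑ i ∈ range (n + 1), ((n + i).choose (2 * i) : ℚ) * y ^ i
def BS (n : ℕ) (y : ℚ) : ℚ := ∑ i ∈ range (n + 1), ((n + 1 + i).choose (2 * i + 1) : ℚ) * y ^ i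

theorem AS_succ (n : ℕ) (y : ℚ) : AS (n + 1) y = AS n y + y * BS n y := by
  have h1 : AS n y = ∑ i ∈ range (n + 1), ((n + (i + 1)).choose (2 * (i + 1)) : ℚ) * y ^ (i + 1) + 1 := by
    rw [AS, sum_range_succ', sum_range_succ _ n, Nat.choose_eq_zero_of_lt (show n + (n + 1) < 2 * (n + 1) by omega)]
    simp
  rw [AS, sum_range_succ', h1, BS, mul_sum]
  have h2 : ∀ i ∈ range (n + 1), (((n + 1 + (i + 1)).choose (2 * (i + 1)) : ℕ) : ℚ) * y ^ (i + 1) =
      ((n + (i + 1)).choose (2 * (i + 1)) : ℚ) * y ^ (i + 1) +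
        y * (((n + 1 + i).choose (2 * i + 1) : ℚ) * y ^ i) := by
    intro i _
    rw [show 2 * (i + 1) = 2 * i + 1 + 1 by ring, show n + 1 + (i + 1) = n + 1 + i + 1 by ring,
      Nat.choose_succ_succ, show n + (i + 1) = n + 1 + i by ring]
    push_cast; ring
  rw [sum_congr rfl h2, sum_add_distrib]
  simp
  ring

theorem BS_succ (n : ℕ) (y : ℚ) : BS (n + 1) y = AS (n + 1) y + BS n y := by
  rw [BS, AS, BS]
  have h0 : ∑ i ∈ range (n + 1), ((n + 1 + i).choose (2 * i + 1) : ℚ) * y ^ i =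
      ∑ i ∈ range (n + 1 + 1), ((n + 1 + i).choose (2 * i + 1) : ℚ) * y ^ i := by
    rw [sum_range_succ _ (n + 1), Nat.choose_eq_zero_of_lt (show n + 1 + (n + 1) < 2 * (n + 1) + 1 by omega)]
    simp
  rw [h0, ← sum_add_distrib]
  refine sum_congr rfl fun i _ => ?_
  rw [show n + 1 + 1 + i = n + 1 + i + 1 by ring, Nat.choose_succ_succ]; push_cast; ring

theorem ASBS (n : ℕ) : AS n (-16 / 3) = ((-3) ^ (n + 1) + ((-3) ^ n)⁻¹) / (-2) ∧
    BS n (-16 / 3) = (-3 / 8) * ((-3) ^ (n + 1) - ((-3) ^ (n + 1))⁻¹) := by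
  induction n with
  | zero => norm_num [AS, BS]
  | succ n ih =>
    have h0 : ((-3 : ℚ)) ^ n ≠ 0 := pow_ne_zero _ (by norm_num)
    have h1 : AS (n + 1) (-16 / 3) = ((-3) ^ (n + 1 + 1) + ((-3) ^ (n + 1))⁻¹) / (-2) := by
      rw [AS_succ, ih.1, ih.2, pow_succ, pow_succ]
      field_simp
      ring
    refine ⟨h1, ?_⟩
    rw [BS_succ, h1, ih.2, pow_succ, pow_succ]
    field_simp
    ring

/-- the weighted sum -/
theorem F_sum (n : ℕ) : ∑ i ∈ range n, (2 * (n : ℚ) + 1) / (2 * i + 1) * (((n + i).choose (2 * i) : ℚ) *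
    (-16 / 3) ^ i) = 3 / 4 * (-3) ^ n + 1 / 4 * ((-3) ^ n)⁻¹ - (-16 / 3) ^ n := by
  have h1 : ∑ i ∈ range (n + 1), (2 * (n : ℚ) + 1) / (2 * i + 1) * (((n + i).choose (2 * i) : ℚ) *
      (-16 / 3) ^ i) = 2 * BS n (-16 / 3) - AS n (-16 / 3) := by
    rw [BS, AS, mul_sum, ← sum_sub_distrib]
    refine sum_congr rfl fun i _ => ?_
    have h2 := Nat.add_one_mul_choose_eq (n + i) (2 * i)
    have h3 : ((n : ℚ) + i + 1) * ((n + i).choose (2 * i) : ℚ) =
        ((n + 1 + i).choose (2 * i + 1) : ℚ) * (2 * i + 1) := by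
      rw [show n + 1 + i = n + i + 1 by ring]
      exact_mod_cast h2
    have h4 : (2 * (i : ℚ) + 1) ≠ 0 := by positivity
    field_simp
    linear_combination 2 * h3
  rw [sum_range_succ, (ASBS n).1, (ASBS n).2] at h1
  have h2 : ((n + n).choose (2 * n) : ℚ) = 1 := by
    rw [← two_mul, Nat.choose_self]; norm_num
  rw [h2] at h1
  have h3 : (2 * (n : ℚ) + 1) ≠ 0 := by positivity
  have h0 : ((-3 : ℚ)) ^ n ≠ 0 := pow_ne_zero _ (by norm_num)
  rw [div_self h3] at h1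
  have e : 2 * (-3 / 8 * ((-3 : ℚ) ^ (n + 1) - ((-3) ^ (n + 1))⁻¹)) - ((-3) ^ (n + 1) + ((-3) ^ n)⁻¹) / -2 =
      3 / 4 * (-3) ^ n + 1 / 4 * ((-3) ^ n)⁻¹ := by
    rw [pow_succ]
    field_simp
    ring
  rw [e] at h1
  linear_combination h1

variable {p n : ℕ} [hp : Fact p.Prime]

theorem T_11 (j : ℕ) : T j 1 1 = ∑ i ∈ range (j + 1), (j.choose i : ℤ) * 3 ^ (j - i) *
    ((-1) ^ i * ((2 * i).choose i : ℤ)) := by
  have h := T_eq j 3 (-1)
  norm_num at h
  exact h

/-- exact form of the first sum -/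
theorem one_exact (hpn : p = 2 * n + 1) : ∑ j ∈ range p, (T j 1 1 : ℚ) * ((2 * j).choose j : ℚ) / 12 ^ j =
    2 * ((2 * p).choose p : ℚ) / 4 ^ p * ∑ i ∈ range p, p / (2 * i + 1) * (((p - 1).choose i : ℚ) *
      ((2 * i).choose i : ℚ) * (-1 / 3) ^ i) := by
  have h1 : ∀ j ∈ range p, (T j 1 1 : ℚ) * ((2 * j).choose j : ℚ) / 12 ^ j =
      ∑ i ∈ range p, ((2 * j).choose j : ℚ) * (j.choose i : ℚ) / 4 ^ j * (((2 * i).choose i : ℚ) * (-1 / 3) ^ i) := by
    intro j hj
    have hj' := mem_range.1 hj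
    rw [T_11]
    push_cast
    rw [sum_mul, sum_div, ← sum_subset (range_subset_range.2 (show j + 1 ≤ p by omega))]
    · refine sum_congr rfl fun i hi => ?_
      obtain ⟨m, rfl⟩ : ∃ m, j = i + m := ⟨j - i, by have := mem_range.1 hi; omega⟩
      rw [show i + m - i = m by omega, show (12 : ℚ) = 3 * 4 by norm_num, mul_pow, pow_add 3, div_pow]
      have a1 : (3 : ℚ) ^ i ≠ 0 := by positivity
      have a2 : (3 : ℚ) ^ m ≠ 0 := by positivity
      have a3 : (4 : ℚ) ^ (i + m) ≠ 0 := by positivity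
      field_simp
    · intro i _ hi
      rw [Nat.choose_eq_zero_of_lt (show j < i by have := mt mem_range.2 hi; omega)]
      simp
  rw [sum_congr rfl h1, sum_comm, mul_sum]
  refine sum_congr rfl fun i hi => ?_
  have hi' := mem_range.1 hi
  rw [← sum_mul]
  have h2 := lemG i p
  have h3 : ((p : ℚ) - i) * (p.choose i : ℚ) = p * ((p - 1).choose i : ℚ) := by
    have h4 := Nat.choose_mul_succ_eq (p - 1) i
    rw [show p - 1 + 1 = p by omega] at h4
    have : (((p - 1).choose i * p : ℕ) : ℚ) = ((p.choose i * (p - i) : ℕ) : ℚ) := by rw [h4]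
    rw [Nat.cast_mul, Nat.cast_mul, Nat.cast_sub hi'.le] at this
    linear_combination (-1) * this
  have h5 : (2 * (i : ℚ) + 1) ≠ 0 := by positivity
  have h6 : ∑ j ∈ range p, ((2 * j).choose j : ℚ) * (j.choose i : ℚ) / 4 ^ j =
      2 * (p * ((p - 1).choose i : ℚ)) * ((2 * p).choose p : ℚ) / 4 ^ p / (2 * i + 1) := by
    rw [eq_div_iff h5, mul_comm, h2, ← h3]
    ring
  rw [h6]
  field_simp

theorem one_ (hpn : p = 2 * n + 1) (h3 : 3 < p) :
    EQ p 2 (∑ j ∈ range p, (T j 1 1 : ℚ) * ((2 * j).choose j : ℚ) / 12 ^ j)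
      ((3 + 3 ^ (p - 1)) / 4 * s3 p) := by
  have hpq : (p : ℚ) = 2 * n + 1 := by exact_mod_cast hpn
  rw [one_exact hpn]
  have u3 := U3' (p := p) h3
  have u4 := U4' (p := p) h3
  have u16 := U16' (p := p) h3
  have m13 : (-1 / 3 : ℚ) ∈ Zp p := by
    rw [div_eq_mul_inv]; exact mul_mem (neg_mem (one_mem _)) u3.2.2
  have m163 : (-16 / 3 : ℚ) ∈ Zp p := by
    rw [div_eq_mul_inv]; exact mul_mem (neg_mem u16.2.1) u3.2.2
  -- the inner sum
  obtain ⟨t, ht⟩ : ∃ t : ℚ, t = (-3) ^ n := ⟨_, rfl⟩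
  obtain ⟨u, hu⟩ : ∃ u : ℚ, u = 16 ^ n := ⟨_, rfl⟩
  have ht0 : t ≠ 0 := by rw [ht]; exact pow_ne_zero _ (by norm_num)
  have hu0 : u ≠ 0 := by rw [hu]; exact pow_ne_zero _ (by norm_num)
  have hin : EQ p 2 (∑ i ∈ range p, p / (2 * i + 1) * (((p - 1).choose i : ℚ) *
      ((2 * i).choose i : ℚ) * (-1 / 3) ^ i)) (u ^ 2 / t + (3 / 4 * t + 1 / 4 * t⁻¹ - u / t)) := by
    have hsplit : range p = range (n + (n + 1)) := by rw [hpn]; congr 1; ring
    have e0 : u ^ 2 / t = 256 ^ n * (-1 / 3) ^ n := by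
      rw [ht, hu, ← pow_mul, mul_comm n 2, pow_mul, ← div_pow, ← mul_pow]; norm_num
    have e1 : u / t = (-16 / 3) ^ n := by
      rw [ht, hu, ← div_pow]; norm_num
    have e2 : 3 / 4 * t + 1 / 4 * t⁻¹ - u / t = ∑ i ∈ range n, (p : ℚ) / (2 * i + 1) * (((n + i).choose (2 * i) : ℚ) *
      (-16 / 3) ^ i) := by
      rw [e1, hpq, F_sum n, ht]
    rw [hsplit, sum_range_add, sum_range_succ', e0, e2,
      add_comm (256 ^ n * (-1 / 3 : ℚ) ^ n)]
    refine EQ.add ?_ ?_
    · refine EQ.sum fun i hi => ?_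
      have hi' := mem_range.1 hi
      have hu1 := two_add_one_U (p := p) hpn (i := i) (by omega) (by omega)
      have h1 := (choose_pm1 (p := p) i (by omega)).mul
        (((halfc (p := p) hpn hi'.le).mono (by norm_num : 1 ≤ 2)).mul (EQ.refl (k := 1) (pow_mem m13 i)))
      have e3 : (-1 : ℚ) ^ i * ((-16) ^ i * ((n + i).choose (2 * i) : ℚ) * (-1 / 3) ^ i) =
          ((n + i).choose (2 * i) : ℚ) * (-16 / 3) ^ i := by
        have : (-16 / 3 : ℚ) = (-1) * (-16) * (-1 / 3) := by norm_num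
        rw [this, mul_pow, mul_pow]; ring
      rw [e3, ← mul_assoc] at h1
      have mp : (p : ℚ) / (2 * i + 1) ∈ Zp p := by
        rw [div_eq_mul_inv]; exact mul_mem p_mem hu1.2.2
      refine ⟨mul_mem mp h1.1, mul_mem mp h1.2.1, ?_⟩
      rw [← mul_sub, div_eq_mul_inv, mul_assoc]
      exact (I_p (p := p)).mul (h1.2.2.mulL hu1.2.2)
    · -- the second half
      have h0 : EQ p 2 ((p : ℚ) / (2 * ((n + 0 : ℕ) : ℚ) + 1) * (((p - 1).choose (n + 0) : ℚ) *
          ((2 * (n + 0)).choose (n + 0) : ℚ) * (-1 / 3) ^ (n + 0))) (256 ^ n * (-1 / 3) ^ n) := by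
        rw [add_zero, ← hpq, div_self (p_ne (p := p)), one_mul, show p - 1 = 2 * n by omega]
        have h1 := halfc (p := p) hpn (le_refl n)
        rw [show n + n = 2 * n by ring, Nat.choose_self, Nat.cast_one, mul_one] at h1
        have h2 := (h1.mul h1).mul (EQ.refl (k := 2) (pow_mem m13 n))
        have e3 : (-16 : ℚ) ^ n * (-16) ^ n = 256 ^ n := by rw [← mul_pow]; norm_num
        rwa [e3] at h2
      have h1 : EQ p 2 (∑ k ∈ range n, (p : ℚ) / (2 * ((n + (k + 1) : ℕ) : ℚ) + 1) *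
          (((p - 1).choose (n + (k + 1)) : ℚ) * ((2 * (n + (k + 1))).choose (n + (k + 1)) : ℚ) *
            (-1 / 3) ^ (n + (k + 1)))) 0 := by
        refine EQ.of_I (I.sum fun k hk => ?_)
        have hk' := mem_range.1 hk
        have hu1 := two_add_one_U (p := p) hpn (i := n + (k + 1)) (by omega) (by omega)
        have hd : I p 1 ((2 * (n + (k + 1))).choose (n + (k + 1)) : ℚ) := by
          refine I_nat ?_
          have h5 : (2 * (n + (k + 1))).choose (n + (k + 1)) * (n + (k + 1)).factorial *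
              (n + (k + 1)).factorial = (2 * (n + (k + 1))).factorial := by
            have := Nat.choose_mul_factorial_mul_factorial (n := 2 * (n + (k + 1))) (k := n + (k + 1)) (by omega)
            rwa [show 2 * (n + (k + 1)) - (n + (k + 1)) = n + (k + 1) by omega] at this
          have h7 : p ∣ (2 * (n + (k + 1))).choose (n + (k + 1)) * (n + (k + 1)).factorial *
              (n + (k + 1)).factorial := by
            rw [h5]; exact (hp.out.dvd_factorial).2 (by omega)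
          rcases (Nat.Prime.dvd_mul hp.out).1 h7 with h | h
          · rcases (Nat.Prime.dvd_mul hp.out).1 h with h | h
            · exact h
            · exact absurd ((hp.out.dvd_factorial).1 h) (by omega)
          · exact absurd ((hp.out.dvd_factorial).1 h) (by omega)
        rw [div_eq_mul_inv]
        exact ((I_p (p := p)).mulR hu1.2.2).mul ((hd.mulL (nat_mem _)).mulR (pow_mem m13 _))
      have h2 := h1.add h0
      rw [zero_add] at h2
      exact h2
  -- the factor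
  have hk : EQ p 2 (2 * ((2 * p).choose p : ℚ) / 4 ^ p) (u⁻¹) := by
    have h1 := ((EQ.refl (k := 2) (n2 (p := p))).mul (choose_2p (p := p))).mul
      (EQ.refl (k := 2) ((u4.pow p).2.2))
    have e3 : (2 : ℚ) * 2 * (4 ^ p)⁻¹ = u⁻¹ := by
      rw [hu, hpn, pow_succ, pow_mul]
      have : (4 : ℚ) ^ 2 = 16 := by norm_num
      rw [this, mul_inv]
      have : (16 : ℚ) ^ n ≠ 0 := by positivity
      field_simp
      norm_num
    rw [e3, ← div_eq_mul_inv] at h1
    exact h1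
  have hmain := hk.mul hin
  -- small quantities
  have hs := (stmtVal p n hpn h3).2.2.2.2
  rw [← ht] at hs
  have hs2 := s3_sq (p := p)
  have hms := s3_mem (p := p)
  obtain ⟨s, hs'⟩ : ∃ s : ℚ, s = s3 p := ⟨_, rfl⟩
  rw [← hs'] at hs hs2 hms ⊢
  have hu1 : EQ p 1 u 1 := by
    have h1 := (fermat (p := p) 2 (not_dvd_small h3 (by norm_num) (by norm_num))).pow 2
    push_cast at h1
    have e3 : ((2 : ℚ) ^ (p - 1)) ^ 2 = u := by
      rw [hu, show p - 1 = 2 * n by omega, ← pow_mul, show 2 * n * 2 = 4 * n by ring, pow_mul]; norm_num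
    rwa [e3, one_pow] at h1
  have hb : EQ p 1 (s * t) 1 := by
    have h1 := (EQ.refl (k := 1) hms).mul hs
    rwa [hs2] at h1
  have Ut : U p t := by
    rw [ht]; have := u3.pow n
    have e3 : (-3 : ℚ) ^ n = (-1) ^ n * 3 ^ n := by rw [← mul_pow]; norm_num
    rw [e3]
    refine U.mul ?_ this
    have hm1 := U_int (p := p) (a := -1) (by
      intro h
      have := Int.le_of_dvd (by norm_num) ((dvd_neg).2 h)
      omega)
    push_cast at hm1
    exact hm1.pow n
  have Uu : U p u := by rw [hu]; exact u16.pow n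
  have ht2 : (3 : ℚ) ^ (p - 1) = t ^ 2 := by
    rw [ht, show p - 1 = 2 * n by omega, ← pow_mul, mul_comm n 2, pow_mul, pow_mul]; norm_num
  rw [ht2]
  have m34 : (3 + t ^ 2) / 4 * s ∈ Zp p := by
    rw [div_eq_mul_inv]
    exact mul_mem (mul_mem (add_mem (by exact_mod_cast nat_mem (p := p) 3) (pow_mem Ut.2.1 2)) u4.2.2) hms
  refine hmain.trans ⟨hmain.2.1, m34, ?_⟩
  have Uall : U p (4 * u * t) := (u4.mul Uu).mul Ut
  refine Uall.cancel ?_
  have key : 4 * u * t * (u⁻¹ * (u ^ 2 / t + (3 / 4 * t + 1 / 4 * t⁻¹ - u / t)) - (3 + t ^ 2) / 4 * s) =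
      (u - 1) * (u - 1) * 4 - (s * t - 1) * (s * t - 1) * (s * t - 1) -
        (u - 1) * (s * t - 1) * (6 + 3 * (s * t - 1) + (s * t - 1) ^ 2) := by
    have hs3 : s ^ 2 = 1 := by rw [sq]; exact hs2
    field_simp
    ring_nf
    have hs4 : s ^ 3 = s := by rw [pow_succ, hs3, one_mul]
    simp only [hs3, hs4]
    ring
  rw [key]
  have Iu := hu1.2.2
  have Ib := hb.2.2
  refine (((Iu.mul Iu).mulR u4.2.1).sub ((Ib.mul Ib).mulR Ib.mem)).sub ((Iu.mul Ib).mulR ?_)
  exact add_mem (add_mem (by exact_mod_cast nat_mem (p := p) 6) (mul_mem u3.2.1 Ib.mem)) (pow_mem Ib.mem 2)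

end Pool.Agent.K3h4.Tri
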